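import Pool.Agent.Helper9.MT.Fin
import Pool.Agent.Helper97.MT.ARI
import Pool.Agent.Helper97.MT.RESB
import Pool.Agent.Helper73.MT.NUMH
import Pool.Agent.Helper70.SUB.Asm

/-! Project T3: assembly. -/

set_option autoImplicit false

namespace Pool.Agent.Helper9.MT

theorem t3_ : ST_T3 :=
  st_T3 Pool.Agent.Helper70.SUB.av_ Pool.Agent.Helper70.SUB.subt_ Pool.Agent.Helper70.SUB.lau1_
    Pool.Agent.Helper97.MT.st_RESB (Pool.Agent.Helper73.MT.st_NUMH Pool.Agent.Helper70.SUB.av_)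
    Pool.Agent.Helper97.MT.st_ARI Pool.Agent.Helper97.MT.st_ROOT

end Pool.Agent.Helper9.MT
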