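import Pool.Agent.Helper9.MT.Slow

/-!
Moving targets: lower bounds for sums of slow multiples of S-units, removal of cancelling terms.
-/

set_option autoImplicit false

namespace Pool.Agent.Helper9.MT

open Finset Filter Pool.Agent.Helper70.SUB

variable {𝒰 : Ultrafilter ℕ} {H : ℕ → ℝ}

theorem prod_av_le (hAV : ST_AV) (S : Finset ℕ) (hS : ∀ p ∈ S, p.Prime) (z : ℤ) :
    ∏ v ∈ plc S, av v (z : ℚ) ≤ |(z : ℝ)| := by
  obtain ⟨av0, avz, hAV⟩ := hAV
  obtain ⟨apos, amul, -, -, aint, alow, -⟩ := hAV S hS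
  rw [plc, Finset.prod_insertNone]
  have h1 : av none (z : ℚ) = |(z : ℝ)| := by
    show |(((z : ℤ) : ℚ) : ℝ)| = _
    simp
  rw [h1]
  have h2 : ∏ p ∈ S, av (some p) (z : ℚ) ≤ 1 :=
    Finset.prod_le_one (fun p _ => av0 _ _) fun p hp => aint p hp z
  calc |(z : ℝ)| * ∏ p ∈ S, av (some p) (z : ℚ) ≤ |(z : ℝ)| * 1 :=
        mul_le_mul_of_nonneg_left h2 (abs_nonneg _)
    _ = _ := mul_one _

/-- integral multiples -/
noncomputable def xx {T : Type} [Fintype T] [DecidableEq T] (c u : T → ℚ) (i : T) : ℤ :=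
  ((c i).num * ∏ i' ∈ univ.erase i, ((c i').den : ℤ)) *
    ((u i).num * ∏ i' ∈ univ.erase i, ((u i').den : ℤ))

/-- the common denominator -/
noncomputable def ee {T : Type} [Fintype T] (c u : T → ℚ) : ℤ :=
  (∏ i, ((c i).den : ℤ)) * ∏ i, ((u i).den : ℤ)

theorem xx_eq {T : Type} [Fintype T] [DecidableEq T] (c u : T → ℚ) (i : T) :
    (xx c u i : ℚ) = ee c u * (c i * u i) := by
  unfold xx ee
  rw [← Finset.mul_prod_erase univ (fun i => ((c i).den : ℤ)) (Finset.mem_univ i),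
    ← Finset.mul_prod_erase univ (fun i => ((u i).den : ℤ)) (Finset.mem_univ i)]
  push_cast
  have h1 : ((c i).num : ℚ) = c i * (c i).den := (Rat.mul_den_eq_num _).symm
  have h2 : ((u i).num : ℚ) = u i * (u i).den := (Rat.mul_den_eq_num _).symm
  rw [h1, h2]
  ring

theorem ee_ne {T : Type} [Fintype T] (c u : T → ℚ) : ee c u ≠ 0 := by
  unfold ee
  refine mul_ne_zero ?_ ?_ <;>
  exact Finset.prod_ne_zero_iff.2 fun i _ => by exact_mod_cast (Rat.den_pos _).ne'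

theorem part_le {T : Type} [Fintype T] [DecidableEq T] (c : T → ℚ) (i : T) :
    |(((c i).num * ∏ i' ∈ univ.erase i, ((c i').den : ℤ) : ℤ) : ℝ)| ≤ ∏ i, ht (c i) := by
  rw [← Finset.mul_prod_erase univ (fun i => ht (c i)) (Finset.mem_univ i)]
  push_cast
  rw [abs_mul, Finset.abs_prod]
  refine mul_le_mul (num_le_ht _) ?_ (Finset.prod_nonneg fun _ _ => abs_nonneg _) (ht_pos _).le
  refine Finset.prod_le_prod (fun _ _ => abs_nonneg _) fun i' _ => ?_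
  rw [abs_of_nonneg (by positivity)]
  exact den_le_ht _

theorem xx_le {T : Type} [Fintype T] [DecidableEq T] (c u : T → ℚ) (i : T) :
    |(xx c u i : ℝ)| ≤ (∏ i, ht (c i)) * ∏ i, ht (u i) := by
  unfold xx
  rw [Int.cast_mul, abs_mul]
  exact mul_le_mul (part_le c i) (part_le u i) (abs_nonneg _)
    (Finset.prod_nonneg fun i _ => (ht_pos _).le)

theorem mhyp_of (hAV : ST_AV) (hH : Tendsto H 𝒰 atTop) (S : Finset ℕ)
    (hS : ∀ p ∈ S, p.Prime) (T : Type) [Fintype T] [DecidableEq T] (c u : ℕ → T → ℚ)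
    (hc : ∀ i, Slow 𝒰 H (fun j => c j i)) (hc0 : ∀ i, ∀ᶠ j in (𝒰 : Filter ℕ), c j i ≠ 0)
    (hu : ∀ i, ∀ᶠ j in (𝒰 : Filter ℕ), QS S (u j i))
    (hns : ∀ i i', i ≠ i' → ¬ Slow 𝒰 H (fun j => u j i / u j i')) :
    MHyp 𝒰 S T (fun j => xx (c j) (u j)) (fun j => ∏ i, ht (c j i)) := by
  have hu0 : ∀ i, ∀ᶠ j in (𝒰 : Filter ℕ), u j i ≠ 0 := by
    intro i
    filter_upwards [hu i] with j hj h0
    have := hj.numden.1.1
    rw [h0] at this
    simp at this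
  have hDslow : ∀ ε : ℝ, 0 < ε → ∀ᶠ j in (𝒰 : Filter ℕ), ∏ i, ht (c j i) ≤ H j ^ ε := by
    intro ε hε
    have h1 : ∀ᶠ j in (𝒰 : Filter ℕ), ∀ i, ht (c j i) ≤ H j ^ (ε / (Fintype.card T + 1)) :=
      Filter.eventually_all.2 fun i => hc i _ (by positivity)
    filter_upwards [h1, ev_pos hH] with j hj hj1
    have hH0 : 0 < H j := by linarith
    calc ∏ i, ht (c j i) ≤ ∏ _i : T, H j ^ (ε / (Fintype.card T + 1)) :=
          Finset.prod_le_prod (fun i _ => (ht_pos _).le) fun i _ => hj i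
      _ = (H j ^ (ε / (Fintype.card T + 1))) ^ Fintype.card T := by simp
      _ = H j ^ (ε / (Fintype.card T + 1) * Fintype.card T) := by
          rw [← Real.rpow_natCast, ← Real.rpow_mul hH0.le]
      _ ≤ H j ^ ε := by
          refine Real.rpow_le_rpow_of_exponent_le hj1 ?_
          rw [div_mul_eq_mul_div, div_le_iff₀ (by positivity)]
          nlinarith
  have hrat : ∀ i i', i ≠ i' → ∃ κ : ℝ, 0 < κ ∧ ∀ᶠ j in (𝒰 : Filter ℕ),
      H j ^ κ ≤ ht ((xx (c j) (u j) i : ℚ) / xx (c j) (u j) i') := by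
    intro i i' hii
    obtain ⟨κ, hκ, h1⟩ := not_slow (hns i i' hii)
    have h2 : Slow 𝒰 H (fun j => c j i * (c j i')⁻¹) := (hc i).mul hH (hc i').inv
    refine ⟨κ / 2, by positivity, ?_⟩
    filter_upwards [h1, h2 (κ / 2) (by positivity), hc0 i, hc0 i', hu0 i, hu0 i', ev_pos hH]
      with j a1 a2 a3 a4 a5 a6 a7
    have hH0 : 0 < H j := by linarith
    have e1 : (xx (c j) (u j) i : ℚ) / xx (c j) (u j) i' =
        (u j i / u j i') * (c j i * (c j i')⁻¹) := by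
      rw [xx_eq, xx_eq]
      have : (ee (c j) (u j) : ℚ) ≠ 0 := by exact_mod_cast ee_ne _ _
      field_simp
    rw [e1]
    refine le_trans ?_ (ht_mul_ge _ _ (mul_ne_zero a3 (inv_ne_zero a4)))
    rw [le_div_iff₀ (ht_pos _)]
    calc H j ^ (κ / 2) * ht (c j i * (c j i')⁻¹) ≤ H j ^ (κ / 2) * H j ^ (κ / 2) :=
          mul_le_mul_of_nonneg_left a2 (Real.rpow_nonneg hH0.le _)
      _ = H j ^ κ := by rw [← Real.rpow_add hH0]; congr 1; ring
      _ ≤ _ := a1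
  refine ⟨?_, ?_, ?_, ?_, ?_⟩
  · intro i
    filter_upwards [hc0 i, hu0 i] with j h1 h2 h3
    have h4 := xx_eq (c j) (u j) i
    rw [h3, Int.cast_zero] at h4
    have : (ee (c j) (u j) : ℚ) ≠ 0 := by exact_mod_cast ee_ne _ _
    exact (mul_ne_zero this (mul_ne_zero h1 h2)) h4.symm
  · intro i
    have hua : ∀ᶠ j in (𝒰 : Filter ℕ), ∀ i, QS S (u j i) := Filter.eventually_all.2 hu
    filter_upwards [hua] with j hj
    have hsu : SU S ((u j i).num * ∏ i' ∈ univ.erase i, ((u j i').den : ℤ)) :=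
      su_mul (hj i).numden.1 (su_prod _ _ fun i' _ => (hj i').numden.2)
    have hAV' := hAV
    obtain ⟨av0, avz, hAV'⟩ := hAV'
    obtain ⟨apos, amul, -, -, aint, alow, apr, aprS, -⟩ := hAV' S hS
    have h1 : ∏ v ∈ plc S, av v ((xx (c j) (u j) i : ℤ) : ℚ) =
        (∏ v ∈ plc S, av v (((c j i).num * ∏ i' ∈ univ.erase i, ((c j i').den : ℤ) : ℤ) : ℚ)) *
        ∏ v ∈ plc S, av v (((u j i).num * ∏ i' ∈ univ.erase i, ((u j i').den : ℤ) : ℤ) : ℚ) := by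
      rw [← Finset.prod_mul_distrib]
      refine Finset.prod_congr rfl fun v hv => ?_
      rw [← amul v hv, xx, ← Int.cast_mul]
    rw [h1, aprS _ hsu.1 hsu.2, mul_one]
    exact (prod_av_le hAV S hS _).trans (part_le _ _)
  · refine Filter.Eventually.of_forall fun j => ?_
    rw [← Finset.prod_const_one (s := (univ : Finset T))]
    exact Finset.prod_le_prod (fun _ _ => zero_le_one) fun i _ => one_le_ht _
  · intro i i' hii ε hε
    obtain ⟨κ, hκ, h1⟩ := hrat i i' hii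
    filter_upwards [h1, hDslow (κ * ε) (by positivity), ev_pos hH] with j a1 a2 a3
    have hH0 : 0 < H j := by linarith
    refine a2.trans ?_
    rw [Real.rpow_mul hH0.le]
    exact Real.rpow_le_rpow (Real.rpow_nonneg hH0.le _) a1 hε.le
  · intro i i' hii B
    obtain ⟨κ, hκ, h1⟩ := hrat i i' hii
    filter_upwards [h1, ev_rpow hH κ hκ B] with j a1 a2
    exact a2.trans a1

/-- lower bounds for sums of slow multiples of S-units -/
theorem lbq (hAV : ST_AV) (hSUBT : ST_SUBT) (h𝒰 : (𝒰 : Filter ℕ) ≤ atTop)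
    (hH : Tendsto H 𝒰 atTop) (S : Finset ℕ)
    (hS : ∀ p ∈ S, p.Prime) (T : Type) [Fintype T] [DecidableEq T] [Nonempty T]
    (c u : ℕ → T → ℚ)
    (hc : ∀ i, Slow 𝒰 H (fun j => c j i)) (hc0 : ∀ i, ∀ᶠ j in (𝒰 : Filter ℕ), c j i ≠ 0)
    (hu : ∀ i, ∀ᶠ j in (𝒰 : Filter ℕ), QS S (u j i))
    (hns : ∀ i i', i ≠ i' → ¬ Slow 𝒰 H (fun j => u j i / u j i')) (A : ℝ) (hA0 : 0 ≤ A)
    (hA : ∀ i, ∀ᶠ j in (𝒰 : Filter ℕ), ht (u j i) ≤ H j ^ A) (v : Option ℕ) (hv : v ∈ plc S)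
    (ε : ℝ) (hε : 0 < ε) :
    ∀ᶠ j in (𝒰 : Filter ℕ), ∀ i, av v (u j i) * H j ^ (-ε) ≤ av v (∑ i, c j i * u j i) := by
  have hM := mhyp_of hAV hH S hS T c u hc hc0 hu hns
  obtain ⟨A', hA'⟩ : ∃ A' : ℝ, A' = A * Fintype.card T + 1 := ⟨_, rfl⟩
  have hA'0 : 0 < A' := by rw [hA']; positivity
  have hbd : ∀ i, ∀ᶠ j in (𝒰 : Filter ℕ), |(xx (c j) (u j) i : ℝ)| ≤ H j ^ A' := by
    intro i
    have h1 : ∀ᶠ j in (𝒰 : Filter ℕ), ∀ i, ht (c j i) ≤ H j ^ ((1 : ℝ) / (Fintype.card T)) :=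
      Filter.eventually_all.2 fun i => hc i _ (by
        have : 0 < Fintype.card T := Fintype.card_pos
        positivity)
    have h2 : ∀ᶠ j in (𝒰 : Filter ℕ), ∀ i, ht (u j i) ≤ H j ^ A := Filter.eventually_all.2 hA
    filter_upwards [h1, h2, ev_pos hH] with j a1 a2 a3
    have hH0 : 0 < H j := by linarith
    have hT : (0 : ℝ) < Fintype.card T := by exact_mod_cast Fintype.card_pos
    have e1 : ∏ i, ht (c j i) ≤ H j ^ (1 : ℝ) := by
      calc ∏ i, ht (c j i) ≤ ∏ _i : T, H j ^ ((1 : ℝ) / (Fintype.card T)) :=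
            Finset.prod_le_prod (fun i _ => (ht_pos _).le) fun i _ => a1 i
        _ = (H j ^ ((1 : ℝ) / (Fintype.card T))) ^ Fintype.card T := by simp
        _ = H j ^ (1 : ℝ) := by
            rw [← Real.rpow_natCast, ← Real.rpow_mul hH0.le]
            congr 1
            field_simp
    have e2 : ∏ i, ht (u j i) ≤ H j ^ (A * Fintype.card T) := by
      calc ∏ i, ht (u j i) ≤ ∏ _i : T, H j ^ A :=
            Finset.prod_le_prod (fun i _ => (ht_pos _).le) fun i _ => a2 i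
        _ = (H j ^ A) ^ Fintype.card T := by simp
        _ = H j ^ (A * Fintype.card T) := by
            rw [← Real.rpow_natCast, ← Real.rpow_mul hH0.le]
    calc |(xx (c j) (u j) i : ℝ)| ≤ (∏ i, ht (c j i)) * ∏ i, ht (u j i) := xx_le _ _ _
      _ ≤ H j ^ (1 : ℝ) * H j ^ (A * Fintype.card T) :=
          mul_le_mul e1 e2 (Finset.prod_nonneg fun i _ => (ht_pos _).le)
            (Real.rpow_nonneg hH0.le _)
      _ = H j ^ A' := by rw [← Real.rpow_add hH0, hA']; congr 1; ring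
  have h1 := lowB hAV hSUBT 𝒰 h𝒰 S hS T inferInstance (fun j => xx (c j) (u j)) _ hM v hv
    (ε / (2 * A')) (by positivity) (fun j => H j ^ A') hbd
  have h2 : ∀ᶠ j in (𝒰 : Filter ℕ), ∀ i, ht (c j i) ≤ H j ^ (ε / 2) :=
    Filter.eventually_all.2 fun i => hc i _ (by positivity)
  have h3 : ∀ᶠ j in (𝒰 : Filter ℕ), ∀ i, c j i ≠ 0 := Filter.eventually_all.2 hc0
  have hAV' := hAV
  obtain ⟨av0, avz, hAV'⟩ := hAV'
  obtain ⟨apos, amul, -⟩ := hAV' S hS
  filter_upwards [h1, h2, h3, ev_pos hH] with j a1 a2 a3 a4 i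
  have hH0 : 0 < H j := by linarith
  have b1 := a1 i
  have hE0 : (ee (c j) (u j) : ℚ) ≠ 0 := by exact_mod_cast ee_ne _ _
  have hEp := apos v hv _ hE0
  have e1 : ∑ i, (xx (c j) (u j) i : ℚ) = ee (c j) (u j) * ∑ i, c j i * u j i := by
    rw [Finset.mul_sum]
    exact Finset.sum_congr rfl fun i _ => xx_eq _ _ _
  rw [e1, amul v hv, xx_eq, amul v hv, amul v hv, mul_assoc, mul_assoc] at b1
  have b2 := le_of_mul_le_mul_left b1 hEp
  have e2 : (H j ^ A') ^ (-(ε / (2 * A'))) = H j ^ (-(ε / 2)) := by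
    rw [← Real.rpow_mul hH0.le]
    congr 1
    field_simp
  rw [e2] at b2
  have b3 := ht_inv_le_av hAV S hS v hv (c j i) (a3 i)
  have b4 : H j ^ (-(ε / 2)) ≤ av v (c j i) := by
    refine le_trans ?_ b3
    rw [Real.rpow_neg hH0.le]
    exact inv_anti₀ (ht_pos _) (a2 i)
  refine le_trans ?_ b2
  have e3 : H j ^ (-ε) = H j ^ (-(ε / 2)) * H j ^ (-(ε / 2)) := by
    rw [← Real.rpow_add hH0]
    congr 1
    ring
  rw [e3]
  have b5 : 0 ≤ av v (u j i) * H j ^ (-(ε / 2)) :=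
    mul_nonneg (av0 _ _) (Real.rpow_nonneg hH0.le _)
  calc av v (u j i) * (H j ^ (-(ε / 2)) * H j ^ (-(ε / 2)))
      = H j ^ (-(ε / 2)) * (av v (u j i) * H j ^ (-(ε / 2))) := by ring
    _ ≤ av v (c j i) * (av v (u j i) * H j ^ (-(ε / 2))) := mul_le_mul_of_nonneg_right b4 b5

/-- representations as sums of slow multiples of S-units -/
def RepS (𝒰 : Ultrafilter ℕ) (H : ℕ → ℝ) (S : Finset ℕ) (a : ℕ → ℤ) (n : ℕ) : Prop :=
  ∃ (c : ℕ → Fin n → ℚ) (u : ℕ → Fin n → ℤ), (∀ i, Slow 𝒰 H (fun j => c j i)) ∧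
    (∀ i, ∀ᶠ j in (𝒰 : Filter ℕ), SU S (u j i)) ∧
    ∀ᶠ j in (𝒰 : Filter ℕ), (a j : ℚ) = ∑ i, c j i * (u j i : ℚ)

theorem repS_drop (hH : Tendsto H 𝒰 atTop) (S : Finset ℕ) (a : ℕ → ℤ) (n : ℕ)
    (c : ℕ → Fin (n + 1) → ℚ) (u : ℕ → Fin (n + 1) → ℤ)
    (hc : ∀ i, Slow 𝒰 H (fun j => c j i)) (hu : ∀ i, ∀ᶠ j in (𝒰 : Filter ℕ), SU S (u j i))
    (hs : ∀ᶠ j in (𝒰 : Filter ℕ), (a j : ℚ) = ∑ i, c j i * (u j i : ℚ)) (i : Fin (n + 1))
    (hi : (∀ᶠ j in (𝒰 : Filter ℕ), c j i = 0) ∨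
      ∃ k : Fin n, Slow 𝒰 H (fun j => (u j i : ℚ) / u j (i.succAbove k))) :
    RepS 𝒰 H S a n := by
  rcases hi with hi | ⟨k, hk⟩
  · refine ⟨fun j k => c j (i.succAbove k), fun j k => u j (i.succAbove k), fun k => hc _,
      fun k => hu _, ?_⟩
    filter_upwards [hs, hi] with j h1 h2
    rw [h1, Fin.sum_univ_succAbove _ i, h2, zero_mul, zero_add]
  · refine ⟨fun j k' => c j (i.succAbove k') +
      (if k' = k then c j i * ((u j i : ℚ) / u j (i.succAbove k)) else 0),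
      fun j k => u j (i.succAbove k), fun k' => ?_, fun k => hu _, ?_⟩
    · refine (hc _).add hH ?_
      split_ifs with h
      · exact (hc i).mul hH hk
      · exact Slow.const hH 0
    · filter_upwards [hs, hu (i.succAbove k)] with j h1 h2
      have h3 : (u j (i.succAbove k) : ℚ) ≠ 0 := by exact_mod_cast h2.1
      rw [h1, Fin.sum_univ_succAbove _ i]
      simp only [add_mul, Finset.sum_add_distrib, ite_mul, zero_mul, Finset.sum_ite_eq',
        Finset.mem_univ, if_true]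
      field_simp
      ring

/-- removal of cancelling terms -/
theorem cleans (hAV : ST_AV) (hSUBT : ST_SUBT) (h𝒰 : (𝒰 : Filter ℕ) ≤ atTop)
    (hH : Tendsto H 𝒰 atTop) (S : Finset ℕ) (hS : ∀ p ∈ S, p.Prime) (a : ℕ → ℤ)
    (ha : ∀ᶠ j in (𝒰 : Filter ℕ), a j ≠ 0) (A : ℝ) (hA0 : 0 ≤ A)
    (hA : ∀ᶠ j in (𝒰 : Filter ℕ), |(a j : ℝ)| ≤ H j ^ A) (t : ℕ) (hR : RepS 𝒰 H S a t) :
    ∃ (n : ℕ) (c : ℕ → Fin n → ℚ) (u : ℕ → Fin n → ℤ) (A' : ℝ),
      (∀ i, Slow 𝒰 H (fun j => c j i)) ∧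
      (∀ i, ∀ᶠ j in (𝒰 : Filter ℕ), SU S (u j i)) ∧
      (∀ᶠ j in (𝒰 : Filter ℕ), (a j : ℚ) = ∑ i, c j i * (u j i : ℚ)) ∧
      0 ≤ A' ∧ (∀ i, ∀ᶠ j in (𝒰 : Filter ℕ), |(u j i : ℝ)| ≤ H j ^ A') := by
  classical
  have hex : ∃ n, RepS 𝒰 H S a n := ⟨t, hR⟩
  obtain ⟨n, hn⟩ : ∃ n, n = Nat.find hex := ⟨_, rfl⟩
  have hmin : ∀ m, m < n → ¬ RepS 𝒰 H S a m := by
    intro m hm
    rw [hn] at hm
    exact Nat.find_min hex hm
  have hspec : RepS 𝒰 H S a n := by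
    rw [hn]
    exact Nat.find_spec hex
  clear hn
  obtain ⟨c, u, hc, hu, hs⟩ := hspec
  cases n with
  | zero => exact ⟨0, c, u, 0, hc, hu, hs, le_refl _, fun i => i.elim0⟩
  | succ n =>
  have hno := hmin n (Nat.lt_succ_self n)
  have hc0 : ∀ i, ∀ᶠ j in (𝒰 : Filter ℕ), c j i ≠ 0 := by
    intro i
    by_contra h
    rw [← Ultrafilter.eventually_not] at h
    simp only [not_not] at h
    exact hno (repS_drop hH S a n c u hc hu hs i (Or.inl h))
  have hns : ∀ i i', i ≠ i' → ¬ Slow 𝒰 H (fun j => (u j i : ℚ) / u j i') := by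
    intro i i' hii h
    obtain ⟨k, rfl⟩ := Fin.exists_succAbove_eq hii.symm
    exact hno (repS_drop hH S a n c u hc hu hs i (Or.inr ⟨k, h⟩))
  have hM := mhyp_of hAV hH S hS (Fin (n + 1)) c (fun j i => (u j i : ℚ)) hc hc0
    (fun i => (hu i).mono fun j hj => QS.int hj) hns
  have h1 := lowB hAV hSUBT 𝒰 h𝒰 S hS (Fin (n + 1)) inferInstance _ _ hM none (by simp [plc])
    (1 / 2) (by norm_num) (fun j => ∑ i, |(xx (c j) (fun i => (u j i : ℚ)) i : ℝ)|)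
    (fun i => Filter.Eventually.of_forall fun j =>
      Finset.single_le_sum (f := fun i => |(xx (c j) (fun i => (u j i : ℚ)) i : ℝ)|)
        (fun i _ => abs_nonneg _) (Finset.mem_univ i))
  have hca : ∀ᶠ j in (𝒰 : Filter ℕ), ∀ i, ht (c j i) ≤ H j ^ ((1 : ℝ) / (n + 1)) :=
    Filter.eventually_all.2 fun i => hc i _ (by positivity)
  have hc0a : ∀ᶠ j in (𝒰 : Filter ℕ), ∀ i, c j i ≠ 0 := Filter.eventually_all.2 hc0
  refine ⟨n + 1, c, u, 2 * A + 4, hc, hu, hs, by positivity, fun i => ?_⟩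
  filter_upwards [h1, hs, hca, hc0a, ha, hA, ev_pos hH, ev_rpow hH 1 one_pos ((n + 1) ^ 2 : ℝ)]
    with j a1 a2 a3 a4 a5 a6 a7 a8
  have hH0 : 0 < H j := by linarith
  obtain ⟨E, hE⟩ : ∃ E : ℤ, E = ee (c j) (fun i => (u j i : ℚ)) := ⟨_, rfl⟩
  have hE0 : E ≠ 0 := by rw [hE]; exact ee_ne _ _
  have hE1 : (1 : ℝ) ≤ |(E : ℝ)| := by exact_mod_cast Int.one_le_abs hE0
  have hEle : |(E : ℝ)| ≤ H j := by
    rw [hE, ee]
    simp only [Rat.den_intCast, Nat.cast_one, Finset.prod_const_one, mul_one]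
    push_cast
    rw [Finset.abs_prod]
    calc ∏ i, |((c j i).den : ℝ)| ≤ ∏ _i : Fin (n + 1), H j ^ ((1 : ℝ) / (n + 1)) := by
          refine Finset.prod_le_prod (fun _ _ => abs_nonneg _) fun i _ => ?_
          rw [abs_of_nonneg (by positivity)]
          exact (den_le_ht _).trans (a3 i)
      _ = (H j ^ ((1 : ℝ) / (n + 1))) ^ (n + 1) := by simp
      _ = H j ^ (1 : ℝ) := by
          rw [← Real.rpow_natCast, ← Real.rpow_mul hH0.le]
          congr 1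
          push_cast
          field_simp
      _ = H j := Real.rpow_one _
  obtain ⟨X, hX⟩ : ∃ X : ℝ, X = ∑ i, |(xx (c j) (fun i => (u j i : ℚ)) i : ℝ)| := ⟨_, rfl⟩
  rw [← hX] at a1
  have hsum : ∑ i, (xx (c j) (fun i => (u j i : ℚ)) i : ℚ) = E * a j := by
    rw [a2, Finset.mul_sum, hE]
    exact Finset.sum_congr rfl fun i _ => xx_eq _ _ _
  rw [hsum] at a1
  have e1 : av none ((E : ℚ) * (a j : ℚ)) = |(E : ℝ)| * |(a j : ℝ)| := by
    show |((((E : ℤ) : ℚ) * ((a j : ℤ) : ℚ) : ℚ) : ℝ)| = _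
    push_cast
    rw [abs_mul]
  rw [e1] at a1
  have hxu : ∀ i, |(u j i : ℝ)| / H j ≤ |(xx (c j) (fun i => (u j i : ℚ)) i : ℝ)| := by
    intro i
    have h2 : ((xx (c j) (fun i => (u j i : ℚ)) i : ℤ) : ℝ) = E * ((c j i : ℚ) * u j i) := by
      have := xx_eq (c j) (fun i => (u j i : ℚ)) i
      rw [← hE] at this
      exact_mod_cast this
    rw [h2, abs_mul, abs_mul]
    have h3 := ht_inv_le_av hAV S hS none (by simp [plc]) (c j i) (a4 i)
    have h4 : av none (c j i) = |((c j i : ℚ) : ℝ)| := rfl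
    rw [h4] at h3
    have h5 : ht (c j i) ≤ H j := by
      refine (a3 i).trans ?_
      calc H j ^ ((1 : ℝ) / (n + 1)) ≤ H j ^ (1 : ℝ) := by
            refine Real.rpow_le_rpow_of_exponent_le a7 ?_
            rw [div_le_one (by positivity)]
            linarith [(Nat.cast_nonneg n : (0 : ℝ) ≤ n)]
        _ = H j := Real.rpow_one _
    have h6 : (H j)⁻¹ ≤ |((c j i : ℚ) : ℝ)| := (inv_anti₀ (ht_pos _) h5).trans h3
    have h7 := abs_nonneg (u j i : ℝ)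
    calc |(u j i : ℝ)| / H j = 1 * ((H j)⁻¹ * |(u j i : ℝ)|) := by ring
      _ ≤ |(E : ℝ)| * (|((c j i : ℚ) : ℝ)| * |(u j i : ℝ)|) :=
          mul_le_mul hE1 (mul_le_mul_of_nonneg_right h6 h7)
            (mul_nonneg (inv_nonneg.2 hH0.le) h7) (abs_nonneg _)
  have hX0 : 0 ≤ X := by rw [hX]; exact Finset.sum_nonneg fun i _ => abs_nonneg _
  have hXi : ∀ i, |(xx (c j) (fun i => (u j i : ℚ)) i : ℝ)| * X ^ (-(1 / 2) : ℝ) ≤
      |(E : ℝ)| * |(a j : ℝ)| := by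
    intro i
    have := a1 i
    have h2 : av none ((xx (c j) (fun i => (u j i : ℚ)) i : ℤ) : ℚ) =
        |(xx (c j) (fun i => (u j i : ℚ)) i : ℝ)| := by
      show |((((xx (c j) (fun i => (u j i : ℚ)) i : ℤ) : ℚ)) : ℝ)| = _
      push_cast
      rfl
    rwa [h2] at this
  have hXs : X * X ^ (-(1 / 2) : ℝ) ≤ (n + 1) * (|(E : ℝ)| * |(a j : ℝ)|) := by
    have h2 : X * X ^ (-(1 / 2) : ℝ) =
        (∑ i, |(xx (c j) (fun i => (u j i : ℚ)) i : ℝ)|) * X ^ (-(1 / 2) : ℝ) := by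
      rw [← hX]
    rw [h2, Finset.sum_mul]
    calc ∑ i, |(xx (c j) (fun i => (u j i : ℚ)) i : ℝ)| * X ^ (-(1 / 2) : ℝ)
        ≤ ∑ _i : Fin (n + 1), |(E : ℝ)| * |(a j : ℝ)| := Finset.sum_le_sum fun i _ => hXi i
      _ = _ := by simp
  have hXle : X ≤ ((n + 1) * (|(E : ℝ)| * |(a j : ℝ)|)) ^ 2 := by
    rcases hX0.eq_or_lt with h0 | h0
    · rw [← h0]; positivity
    · have h2 : X * X ^ (-(1 / 2) : ℝ) = X ^ (1 / 2 : ℝ) := by
        nth_rewrite 1 [← Real.rpow_one X]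
        rw [← Real.rpow_add h0]
        norm_num
      rw [h2] at hXs
      calc X = (X ^ (1 / 2 : ℝ)) ^ 2 := by
            rw [← Real.rpow_natCast, ← Real.rpow_mul hX0]
            norm_num
        _ ≤ _ := pow_le_pow_left₀ (Real.rpow_nonneg hX0 _) hXs 2
  have h2 : |(u j i : ℝ)| / H j ≤ X :=
    (hxu i).trans (by
      rw [hX]
      exact Finset.single_le_sum (f := fun i => |(xx (c j) (fun i => (u j i : ℚ)) i : ℝ)|)
        (fun i _ => abs_nonneg _) (Finset.mem_univ i))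
  rw [div_le_iff₀ hH0] at h2
  rw [Real.rpow_one] at a8
  calc |(u j i : ℝ)| ≤ X * H j := h2
    _ ≤ ((n + 1) * (|(E : ℝ)| * |(a j : ℝ)|)) ^ 2 * H j :=
        mul_le_mul_of_nonneg_right hXle hH0.le
    _ = (n + 1) ^ 2 * (|(E : ℝ)| ^ 2 * |(a j : ℝ)| ^ 2) * H j := by ring
    _ ≤ H j * (H j ^ 2 * (H j ^ A) ^ 2) * H j := by
        refine mul_le_mul_of_nonneg_right ?_ hH0.le
        refine mul_le_mul a8 ?_ (by positivity) hH0.le
        exact mul_le_mul (pow_le_pow_left₀ (abs_nonneg _) hEle 2)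
          (pow_le_pow_left₀ (abs_nonneg _) a6 2) (by positivity) (by positivity)
    _ = H j ^ (2 * A + 4) := by
        have h3 : H j ^ (2 * A + 4) = (H j ^ A) ^ 2 * H j ^ (4 : ℕ) := by
          rw [Real.rpow_add hH0, ← Real.rpow_natCast (H j ^ A), ← Real.rpow_mul hH0.le]
          congr 1
          · congr 1
            push_cast
            ring
          · norm_cast
        rw [h3]
        ring

end Pool.Agent.Helper9.MT
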