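import Pool.Agent.Helper9.MT.Main

/-!
Project T3: from the negation of the statement to a sequence.
-/

set_option autoImplicit false

namespace Pool.Agent.Helper9.MT

open Finset Filter Polynomial Pool.Agent.Helper70.SUB

/-- slow sequences along a counterexample sequence -/
theorem slow_of_exp {𝒰 : Ultrafilter ℕ} (h𝒰 : (𝒰 : Filter ℕ) ≤ atTop) {H Hh : ℕ → ℝ}
    (hH : Tendsto H 𝒰 atTop) (h0 : ∀ n, 0 ≤ Hh n)
    (hlt : ∀ n : ℕ, ((n : ℝ) + 1) * (Hh n + 1) < Real.log (H n))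
    (C l : ℝ) (_hl : 0 ≤ l) (s : ℕ → ℚ)
    (hs : ∀ᶠ n in (𝒰 : Filter ℕ), ht (s n) ≤ C * Real.exp (l * (Hh n + 1))) : Slow 𝒰 H s := by
  intro ε hε
  have h1 : ∀ᶠ n : ℕ in (𝒰 : Filter ℕ), 2 * l / ε ≤ (n : ℝ) :=
    h𝒰 (tendsto_natCast_atTop_atTop.eventually_ge_atTop _)
  filter_upwards [hs, h1, ev_rpow hH (ε / 2) (by positivity) C, ev_pos hH] with n a1 a2 a3 a4
  have hH0 : 0 < H n := by linarith
  have e1 : Real.exp (l * (Hh n + 1)) ≤ H n ^ (ε / 2) := by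
    rw [Real.rpow_def_of_pos hH0]
    refine Real.exp_le_exp.2 ?_
    have h2 := hlt n
    have h3 := h0 n
    rw [div_le_iff₀ hε] at a2
    have h4 : l * (Hh n + 1) ≤ ((n : ℝ) * ε / 2) * (Hh n + 1) :=
      mul_le_mul_of_nonneg_right (by linarith) (by linarith)
    nlinarith
  calc ht (s n) ≤ C * Real.exp (l * (Hh n + 1)) := a1
    _ ≤ H n ^ (ε / 2) * H n ^ (ε / 2) :=
        mul_le_mul a3 e1 (Real.exp_pos _).le (Real.rpow_nonneg hH0.le _)
    _ = H n ^ ε := by rw [← Real.rpow_add hH0]; congr 1; ring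

theorem repS_of_sparse {𝒰 : Ultrafilter ℕ} (h𝒰 : (𝒰 : Filter ℕ) ≤ atTop) {H Hh : ℕ → ℝ}
    (hH : Tendsto H 𝒰 atTop) (h0 : ∀ n, 0 ≤ Hh n)
    (hlt : ∀ n : ℕ, ((n : ℝ) + 1) * (Hh n + 1) < Real.log (H n)) (S : Finset ℕ) (t : ℕ)
    (κ : ℝ) (hκ : 0 ≤ κ) (a : ℕ → ℤ) (h : ∀ n, Sparse S t (Real.exp (κ * (Hh n + 1))) (a n)) :
    RepS 𝒰 H S a t := by
  choose c u hc hu ha using h
  refine ⟨fun n i => (c n i : ℚ), u, fun i => ?_, fun i => Filter.Eventually.of_forall fun n =>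
    hu n i, Filter.Eventually.of_forall fun n => ?_⟩
  · refine slow_of_exp h𝒰 hH h0 hlt 1 κ hκ _ (Filter.Eventually.of_forall fun n => ?_)
    rw [ht_int, one_mul]
    exact max_le (hc n i) (Real.one_le_exp (mul_nonneg hκ (by linarith [h0 n])))
  · rw [ha n]
    push_cast
    rfl

theorem st_T3 (hAV : ST_AV) (hSUBT : ST_SUBT) (hLAU1 : ST_LAU1) (hRESB : ST_RESB)
    (hNUMH : ST_NUMH) (hARI : ST_ARI) (hROOT : ST_ROOT) : ST_T3 := by
  intro S t d κ hS hd hκ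
  by_contra hcon
  push Not at hcon
  have hn : ∀ n : ℕ, ∃ (F : ℚ[X]), F.natDegree = d ∧ F.Separable ∧ ∃ x y : ℚ,
      y ^ 2 = F.eval x ∧ ∃ H : ℝ, (∀ i, Real.log (ht (F.coeff i)) ≤ H) ∧
      Sparse S t (Real.exp (κ * (H + 1))) x.num ∧
      Sparse S t (Real.exp (κ * (H + 1))) (x.den : ℤ) ∧
      Sparse S t (Real.exp (κ * (H + 1))) y.num ∧
      ((n : ℝ) + 1) * H + ((n : ℝ) + 1) < Real.log (ht x) := by
    intro n
    exact hcon ((n : ℝ) + 1) ((n : ℝ) + 1) (by positivity) (by positivity)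
  choose F hFd hFs x y hxy Hh hHh hx1 hx2 hy1 hlt' using hn
  have h0 : ∀ n, 0 ≤ Hh n := fun n =>
    (Real.log_nonneg (one_le_ht _)).trans (hHh n 0)
  obtain ⟨H, hHdef⟩ : ∃ H : ℕ → ℝ, ∀ n, H n = ht (x n) := ⟨_, fun _ => rfl⟩
  have hlt : ∀ n : ℕ, ((n : ℝ) + 1) * (Hh n + 1) < Real.log (H n) := by
    intro n
    rw [hHdef]
    have := hlt' n
    linarith
  obtain ⟨𝒰, h𝒰⟩ : ∃ 𝒰 : Ultrafilter ℕ, (𝒰 : Filter ℕ) ≤ atTop :=
    ⟨hyperfilter ℕ, by rw [← Nat.cofinite_eq_atTop]; exact hyperfilter_le_cofinite⟩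
  have hHn : ∀ n : ℕ, (n : ℝ) ≤ H n := by
    intro n
    have h1 := hlt n
    have h2 := h0 n
    have h3 : 0 < H n := by rw [hHdef]; exact ht_pos _
    have h4 := Real.log_le_sub_one_of_pos h3
    nlinarith
  have hH : Tendsto H 𝒰 atTop :=
    (tendsto_atTop_mono hHn tendsto_natCast_atTop_atTop).mono_left h𝒰
  -- no slow quotient
  have hns : ¬ Slow 𝒰 H x := by
    intro hs
    obtain ⟨n, h1, h2⟩ := ((hs (1 / 2) (by norm_num)).and (hH.eventually_ge_atTop 2)).exists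
    rw [← hHdef] at h1
    have h3 : H n ^ (1 / 2 : ℝ) < H n := by
      calc H n ^ (1 / 2 : ℝ) < H n ^ (1 : ℝ) :=
            Real.rpow_lt_rpow_of_exponent_lt (by linarith) (by norm_num)
        _ = H n := Real.rpow_one _
    linarith
  -- integral equation
  obtain ⟨κ1, hκ1⟩ := hARI d (by omega)
  have hA := fun n => hκ1 (F n) (x n) (y n) (Real.exp (Hh n)) (hFd n) (hFs n)
    (Real.one_le_exp (h0 n)) (fun i => (Real.log_le_iff_le_exp (ht_pos _)).1 (hHh n i)) (hxy n)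
  choose f hfd hfs hfc hfk hf0 using hA
  have hBexp : ∀ n, Real.exp (Hh n) ^ κ1 ≤ Real.exp (κ1 * (Hh n + 1)) := by
    intro n
    rw [← Real.exp_nat_mul]
    refine Real.exp_le_exp.2 ?_
    have : (0 : ℝ) ≤ κ1 := Nat.cast_nonneg _
    nlinarith
  have hB1 : ∀ n, 1 ≤ Real.exp (Hh n) ^ κ1 := fun n => one_le_pow₀ (Real.one_le_exp (h0 n))
  have hk : ∀ n, ∃ k : ℤ, k ≠ 0 ∧ |(k : ℝ)| ≤ Real.exp (Hh n) ^ κ1 ∧
      (y n ≠ 0 → hom d (f n) (x n).num (x n).den = k * (y n).num ^ 2) := by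
    intro n
    by_cases hy0 : y n = 0
    · refine ⟨1, one_ne_zero, ?_, fun h => absurd hy0 h⟩
      simpa using hB1 n
    · obtain ⟨k, hk1, hk2, hk3⟩ := hfk n hy0
      exact ⟨k, hk1, hk2, fun _ => hk3⟩
  choose k hk0 hkb hke using hk
  have hcop : ∀ n, IsCoprime (x n).num ((x n).den : ℤ) := by
    intro n
    rw [Int.isCoprime_iff_gcd_eq_one]
    exact (x n).reduced
  have hden : ∀ n, ((x n).den : ℤ) ≠ 0 := fun n => by exact_mod_cast (x n).den_pos.ne'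
  have hHmax : ∀ n, H n = max |((x n).num : ℝ)| |(((x n).den : ℤ) : ℝ)| := by
    intro n
    rw [hHdef, ht]
    congr 1
    rw [abs_of_nonneg (by positivity)]
    simp
  have hy0 : ∀ᶠ n in (𝒰 : Filter ℕ), y n ≠ 0 := by
    by_contra h
    rw [← Ultrafilter.eventually_not] at h
    simp only [not_not] at h
    apply hns
    refine slow_of_exp h𝒰 hH h0 hlt (d + 1) (2 * κ1) (by positivity) x ?_
    filter_upwards [h] with n hn
    obtain ⟨g1, g2⟩ := hROOT d (by omega) (f n) (x n).num (x n).den (Real.exp (Hh n) ^ κ1)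
      (hfd n) (hB1 n) (hfc n) (hcop n) (hden n) (hf0 n hn)
    have e1 : (Real.exp (Hh n) ^ κ1) ^ 2 ≤ Real.exp (2 * κ1 * (Hh n + 1)) := by
      calc (Real.exp (Hh n) ^ κ1) ^ 2 ≤ Real.exp (κ1 * (Hh n + 1)) ^ 2 :=
            pow_le_pow_left₀ (by positivity) (hBexp n) 2
        _ = Real.exp (2 * κ1 * (Hh n + 1)) := by
            rw [← Real.exp_nat_mul]
            congr 1
            push_cast
            ring
    have e2 : ((d : ℝ) + 1) * (Real.exp (Hh n) ^ κ1) ^ 2 ≤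
        (d + 1) * Real.exp (2 * κ1 * (Hh n + 1)) :=
      mul_le_mul_of_nonneg_left e1 (by positivity)
    rw [← hHdef, hHmax]
    refine max_le (g1.trans e2) (g2.trans (le_trans ?_ e2))
    have e3 : Real.exp (Hh n) ^ κ1 ≤ (Real.exp (Hh n) ^ κ1) ^ 2 :=
      le_self_pow₀ (hB1 n) (by norm_num)
    have e4 : (0 : ℝ) ≤ d := Nat.cast_nonneg _
    nlinarith [mul_nonneg e4 (sq_nonneg (Real.exp (Hh n) ^ κ1))]
  have hx0 : ∀ n, (x n).num ≠ 0 := by
    intro n h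
    have h1 : x n = 0 := Rat.num_eq_zero.1 h
    have h2 := hlt n
    rw [hHdef, h1] at h2
    have h3 : ht 0 = 1 := by unfold ht; simp
    rw [h3, Real.log_one] at h2
    have h4 := h0 n
    have h5 : (0 : ℝ) ≤ ((n : ℝ) + 1) * (Hh n + 1) := by positivity
    linarith
  refine main hAV hSUBT hLAU1 hRESB hNUMH h𝒰 hH d hd S hS f k (fun n => (x n).num)
    (fun n => ((x n).den : ℤ)) (fun n => (y n).num) (Filter.Eventually.of_forall hfd)
    (Filter.Eventually.of_forall hfs) (fun i => ?_) ?_ (Filter.Eventually.of_forall hk0) ?_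
    (Filter.Eventually.of_forall hx0) (Filter.Eventually.of_forall hden)
    (Filter.Eventually.of_forall hcop) (Filter.Eventually.of_forall hHmax) ?_ t
    (repS_of_sparse h𝒰 hH h0 hlt S t κ hκ _ hx1) (repS_of_sparse h𝒰 hH h0 hlt S t κ hκ _ hx2)
    (repS_of_sparse h𝒰 hH h0 hlt S t κ hκ _ hy1)
  · refine slow_of_exp h𝒰 hH h0 hlt 1 κ1 (Nat.cast_nonneg _) _
      (Filter.Eventually.of_forall fun n => ?_)
    rw [ht_int, one_mul]
    exact max_le ((hfc n i).trans (hBexp n)) ((hB1 n).trans (hBexp n))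
  · refine slow_of_exp h𝒰 hH h0 hlt 1 κ1 (Nat.cast_nonneg _) _
      (Filter.Eventually.of_forall fun n => ?_)
    rw [ht_int, one_mul]
    exact max_le ((hkb n).trans (hBexp n)) ((hB1 n).trans (hBexp n))
  · filter_upwards [hy0] with n hn h
    exact hn (Rat.num_eq_zero.1 h)
  · filter_upwards [hy0] with n hn
    exact hke n hn

end Pool.Agent.Helper9.MT
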