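import Pool.Agent.Helper70.SUB.SheetA

/-!
Moving targets from the Subspace theorem: heights of rational numbers.
-/

set_option autoImplicit false

namespace Pool.Agent.Helper9.MT

open Finset Pool.Agent.Helper70.SUB

/-- multiplicative height of a rational number -/
noncomputable def ht (x : ℚ) : ℝ := max |(x.num : ℝ)| (x.den : ℝ)

theorem one_le_ht (x : ℚ) : 1 ≤ ht x := by
  refine le_max_of_le_right ?_
  exact_mod_cast x.den_pos

theorem ht_pos (x : ℚ) : 0 < ht x := lt_of_lt_of_le one_pos (one_le_ht x)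

theorem num_le_ht (x : ℚ) : |(x.num : ℝ)| ≤ ht x := le_max_left _ _

theorem den_le_ht (x : ℚ) : (x.den : ℝ) ≤ ht x := le_max_right _ _

/-- the height of a quotient of integers -/
theorem ht_div_le (a b : ℤ) (hb : b ≠ 0) (B : ℝ) (h1 : |(a : ℝ)| ≤ B) (h2 : |(b : ℝ)| ≤ B) :
    ht ((a : ℚ) / b) ≤ B := by
  obtain ⟨c, hc1, hc2⟩ := Rat.num_den_mk (q := (a : ℚ) / b) hb (by rw [Rat.divInt_eq_div])
  have hc0 : c ≠ 0 := by
    rintro rfl
    rw [zero_mul] at hc2
    exact hb hc2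
  have hc3 : (1 : ℝ) ≤ |(c : ℝ)| := by
    exact_mod_cast Int.one_le_abs hc0
  have e1 : |(a : ℝ)| = |(c : ℝ)| * |((((a : ℚ) / b).num : ℤ) : ℝ)| := by
    rw [← abs_mul]
    congr 1
    exact_mod_cast hc1
  have e2 : |(b : ℝ)| = |(c : ℝ)| * ((((a : ℚ) / b).den : ℕ) : ℝ) := by
    rw [← abs_of_nonneg (by positivity : (0 : ℝ) ≤ ((((a : ℚ) / b).den : ℕ) : ℝ)), ← abs_mul]
    congr 1
    exact_mod_cast hc2
  refine max_le ?_ ?_
  · refine le_trans ?_ h1
    rw [e1]
    nlinarith [abs_nonneg ((((a : ℚ) / b).num : ℤ) : ℝ)]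
  · refine le_trans ?_ h2
    rw [e2]
    nlinarith [(by positivity : (0 : ℝ) ≤ ((((a : ℚ) / b).den : ℕ) : ℝ))]

theorem ht_le_of_eq (x : ℚ) (a b : ℤ) (hb : b ≠ 0) (hx : x * b = a) (B : ℝ)
    (h1 : |(a : ℝ)| ≤ B) (h2 : |(b : ℝ)| ≤ B) : ht x ≤ B := by
  have hb' : (b : ℚ) ≠ 0 := by exact_mod_cast hb
  have : x = (a : ℚ) / b := by
    rw [eq_div_iff hb', hx]
  rw [this]
  exact ht_div_le a b hb B h1 h2

theorem ht_inv (x : ℚ) : ht x⁻¹ = ht x := by
  rcases eq_or_ne x 0 with rfl | hx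
  · simp
  have key : ∀ x : ℚ, x ≠ 0 → ht x⁻¹ ≤ ht x := by
    intro x hx
    have hn : x.num ≠ 0 := by simpa using hx
    refine ht_le_of_eq x⁻¹ x.den x.num hn ?_ _ ?_ (num_le_ht x)
    · have h1 : (x.num : ℚ) = x * x.den := (Rat.mul_den_eq_num x).symm
      rw [h1]
      field_simp
      push_cast
      ring
    · rw [abs_of_nonneg (by positivity)]
      exact_mod_cast den_le_ht x
  refine le_antisymm (key x hx) ?_
  have := key x⁻¹ (inv_ne_zero hx)
  rwa [inv_inv] at this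

theorem ht_mul (x y : ℚ) : ht (x * y) ≤ ht x * ht y := by
  refine ht_le_of_eq (x * y) (x.num * y.num) (x.den * y.den)
    (by exact_mod_cast (Nat.mul_pos x.den_pos y.den_pos).ne') ?_ _ ?_ ?_
  · push_cast
    have h1 : (x.num : ℚ) = x * x.den := (Rat.mul_den_eq_num x).symm
    have h2 : (y.num : ℚ) = y * y.den := (Rat.mul_den_eq_num y).symm
    rw [h1, h2]
    ring
  · push_cast
    rw [abs_mul]
    exact mul_le_mul (num_le_ht x) (num_le_ht y) (abs_nonneg _) (ht_pos x).le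
  · push_cast
    rw [abs_of_nonneg (by positivity)]
    exact mul_le_mul (den_le_ht x) (den_le_ht y) (by positivity) (ht_pos x).le

theorem ht_add (x y : ℚ) : ht (x + y) ≤ 2 * (ht x * ht y) := by
  have e1 := mul_le_mul (num_le_ht x) (den_le_ht y) (by positivity) (ht_pos x).le
  have e2 := mul_le_mul (den_le_ht x) (num_le_ht y) (by positivity) (ht_pos x).le
  have e3 := mul_le_mul (den_le_ht x) (den_le_ht y) (by positivity) (ht_pos x).le
  refine ht_le_of_eq (x + y) (x.num * y.den + x.den * y.num) (x.den * y.den)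
    (by exact_mod_cast (Nat.mul_pos x.den_pos y.den_pos).ne') ?_ _ ?_ ?_
  · push_cast
    have h1 : (x.num : ℚ) = x * x.den := (Rat.mul_den_eq_num x).symm
    have h2 : (y.num : ℚ) = y * y.den := (Rat.mul_den_eq_num y).symm
    rw [h1, h2]
    ring
  · push_cast
    refine (abs_add_le _ _).trans ?_
    rw [abs_mul, abs_mul, abs_of_nonneg (by positivity : (0 : ℝ) ≤ ((y.den : ℕ) : ℝ)),
      abs_of_nonneg (by positivity : (0 : ℝ) ≤ ((x.den : ℕ) : ℝ))]
    linarith
  · push_cast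
    rw [abs_of_nonneg (by positivity)]
    nlinarith [ht_pos x, ht_pos y, mul_pos (ht_pos x) (ht_pos y)]

theorem ht_neg (x : ℚ) : ht (-x) = ht x := by
  unfold ht
  simp

theorem ht_pow_ge (x : ℚ) (n : ℕ) (hn : n ≠ 0) : ht x ≤ ht (x ^ n) := by
  unfold ht
  rw [Rat.num_pow, Rat.den_pow]
  push_cast
  rw [abs_pow]
  have h1 : (1 : ℝ) ≤ (x.den : ℝ) := by exact_mod_cast x.den_pos
  rcases le_total |(x.num : ℝ)| (x.den : ℝ) with h | h
  · rw [max_eq_right h]
    refine le_trans ?_ (le_max_right _ _)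
    exact le_self_pow₀ h1 hn
  · rw [max_eq_left h]
    refine le_trans ?_ (le_max_left _ _)
    exact le_self_pow₀ (h1.trans h) hn

theorem ht_zpow_ge (x : ℚ) (n : ℤ) (hn : n ≠ 0) : ht x ≤ ht (x ^ n) := by
  rcases le_total 0 n with h | h
  · lift n to ℕ using h
    rw [zpow_natCast]
    exact ht_pow_ge x n (by simpa using hn)
  · obtain ⟨m, rfl⟩ : ∃ m : ℕ, n = -(m : ℤ) := ⟨n.natAbs, by omega⟩
    rw [zpow_neg, ht_inv, zpow_natCast]
    exact ht_pow_ge x m (by simpa using hn)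

theorem ht_pow_le (x : ℚ) (n : ℕ) : ht (x ^ n) ≤ ht x ^ n := by
  induction n with
  | zero =>
    rw [pow_zero, pow_zero]
    unfold ht
    simp
  | succ n ih =>
    rw [pow_succ, pow_succ]
    exact (ht_mul _ _).trans (mul_le_mul_of_nonneg_right ih (ht_pos x).le)

theorem ht_zpow_le (x : ℚ) (n : ℤ) : ht (x ^ n) ≤ ht x ^ n.natAbs := by
  rcases le_total 0 n with h | h
  · lift n to ℕ using h
    rw [zpow_natCast]
    exact ht_pow_le x n
  · obtain ⟨m, rfl⟩ : ∃ m : ℕ, n = -(m : ℤ) := ⟨n.natAbs, by omega⟩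
    rw [zpow_neg, ht_inv, zpow_natCast, Int.natAbs_neg, Int.natAbs_natCast]
    exact ht_pow_le x m

theorem ht_prod {ι : Type} (s : Finset ι) (f : ι → ℚ) : ht (∏ i ∈ s, f i) ≤ ∏ i ∈ s, ht (f i) := by
  classical
  induction s using Finset.induction_on with
  | empty =>
    rw [Finset.prod_empty, Finset.prod_empty]
    unfold ht
    simp
  | insert i s hi ih =>
    rw [Finset.prod_insert hi, Finset.prod_insert hi]
    exact (ht_mul _ _).trans (mul_le_mul_of_nonneg_left ih (ht_pos _).le)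

theorem ht_int (n : ℤ) : ht (n : ℚ) = max |(n : ℝ)| 1 := by
  unfold ht
  simp

/-- absolute values are bounded by the height -/
theorem av_le_ht (hAV : ST_AV) (S : Finset ℕ) (hS : ∀ p ∈ S, p.Prime) (v : Option ℕ)
    (hv : v ∈ plc S) (x : ℚ) : av v x ≤ ht x := by
  obtain ⟨av0, avz, hAV⟩ := hAV
  obtain ⟨apos, amul, -, -, aint, alow, -⟩ := hAV S hS
  have hd : (x.den : ℚ) ≠ 0 := by exact_mod_cast x.den_pos.ne'
  have hd1 : (1 : ℝ) ≤ (x.den : ℝ) := by exact_mod_cast x.den_pos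
  have e1 : av v x * av v (x.den : ℚ) = av v (x.num : ℚ) := by
    rw [← amul v hv, Rat.mul_den_eq_num]
  cases v with
  | none =>
    have h1 : av none x = |(x : ℝ)| := rfl
    rw [h1]
    have h2 : |(x : ℝ)| * x.den = |(x.num : ℝ)| := by
      have h3 : (x : ℝ) * x.den = x.num := by exact_mod_cast Rat.mul_den_eq_num x
      rw [← h3, abs_mul, abs_of_nonneg (by positivity : (0 : ℝ) ≤ (x.den : ℝ))]
    have h4 := num_le_ht x
    nlinarith [abs_nonneg (x : ℝ)]
  | some p =>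
    have hp : p ∈ S := by simpa [plc] using hv
    have h1 : (1 : ℝ) ≤ av (some p) (x.den : ℚ) * |((x.den : ℤ) : ℝ)| := by
      have := alow p hp (x.den : ℤ) (by exact_mod_cast x.den_pos.ne')
      exact_mod_cast this
    have h2 : av (some p) (x.num : ℚ) ≤ 1 := aint p hp x.num
    have h3 : |((x.den : ℤ) : ℝ)| = (x.den : ℝ) := by
      rw [abs_of_nonneg (by positivity)]
      norm_cast
    rw [h3] at h1
    have h4 := den_le_ht x
    have h5 := av0 (some p) x
    have h6 := av0 (some p) (x.den : ℚ)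
    -- av x * av den ≤ 1 ≤ av den * den
    by_contra hcon
    push Not at hcon
    have h7 : (x.den : ℝ) < av (some p) x := lt_of_le_of_lt h4 hcon
    have h8 : 0 < av (some p) (x.den : ℚ) := apos _ hv _ hd
    nlinarith

theorem ht_inv_le_av (hAV : ST_AV) (S : Finset ℕ) (hS : ∀ p ∈ S, p.Prime) (v : Option ℕ)
    (hv : v ∈ plc S) (x : ℚ) (hx : x ≠ 0) : (ht x)⁻¹ ≤ av v x := by
  have h1 := av_le_ht hAV S hS v hv x⁻¹
  obtain ⟨av0, avz, hAV⟩ := hAV
  obtain ⟨apos, amul, -⟩ := hAV S hS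
  have h0 := apos v hv x hx
  have h0' := apos v hv x⁻¹ (inv_ne_zero hx)
  have h11 : av v 1 = 1 := by
    have := amul v hv 1 1
    rw [mul_one] at this
    have h2 := apos v hv 1 one_ne_zero
    nlinarith
  have h2 : av v x * av v x⁻¹ = 1 := by
    rw [← amul v hv, mul_inv_cancel₀ hx, h11]
  rw [ht_inv] at h1
  have h3 : av v x = (av v x⁻¹)⁻¹ := by
    rw [eq_comm, inv_eq_one_div, div_eq_iff h0'.ne', h2]
  rw [h3]
  exact inv_anti₀ h0' h1

theorem av_one (hAV : ST_AV) (S : Finset ℕ) (hS : ∀ p ∈ S, p.Prime) (v : Option ℕ)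
    (hv : v ∈ plc S) : av v 1 = 1 := by
  obtain ⟨av0, avz, hAV⟩ := hAV
  obtain ⟨apos, amul, -⟩ := hAV S hS
  have := amul v hv 1 1
  rw [mul_one] at this
  have h2 := apos v hv 1 one_ne_zero
  nlinarith

end Pool.Agent.Helper9.MT
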