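import Pool.Agent.Helper9.MT.Ht
import Pool.Agent.Helper89.SUB.Rel
import Pool.Agent.Helper8.SUB.U2

/-!
Moving targets from the Subspace theorem: independence and lower bounds along an ultrafilter.
-/

set_option autoImplicit false

namespace Pool.Agent.Helper9.MT

open Finset Filter Pool.Agent.Helper70.SUB

/-- the Subspace theorem along an ultrafilter -/
theorem subtU (hSUBT : ST_SUBT) (𝒰 : Ultrafilter ℕ) (h𝒰 : (𝒰 : Filter ℕ) ≤ atTop) (n : ℕ)
    (S : Finset ℕ) (A : Option ℕ → Matrix (Fin n) (Fin n) ℚ) (ε : ℝ) (x : ℕ → Fin n → ℤ)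
    (hn : 1 ≤ n) (hS : ∀ p ∈ S, p.Prime) (hA : ∀ v ∈ plc S, (A v).det ≠ 0) (hε : 0 < ε)
    (hx : ∀ B : ℝ, ∀ᶠ j in (𝒰 : Filter ℕ), B < ‖x j‖)
    (hprod : ∀ᶠ j in (𝒰 : Filter ℕ),
      ∏ v ∈ plc S, ∏ i, av v ((A v).mulVec (cv (x j)) i) ≤ ‖x j‖ ^ (-ε)) :
    ∃ u : Fin n → ℚ, u ≠ 0 ∧ ∀ᶠ j in (𝒰 : Filter ℕ), ∑ i, u i * (x j i : ℚ) = 0 := by
  by_contra hcon
  push Not at hcon
  obtain ⟨f, hf⟩ := exists_surjective_nat (Fin n → ℚ)
  have hE : ∀ k : ℕ, ∀ᶠ j in (𝒰 : Filter ℕ),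
      (∏ v ∈ plc S, ∏ i, av v ((A v).mulVec (cv (x j)) i) ≤ ‖x j‖ ^ (-ε)) ∧ (k : ℝ) < ‖x j‖ ∧
      ∀ i ∈ Finset.range (k + 1), f i ≠ 0 → ∑ l, f i l * (x j l : ℚ) ≠ 0 := by
    intro k
    refine hprod.and ((hx k).and ?_)
    refine (Filter.eventually_all_finset _).2 fun i _ => ?_
    by_cases h0 : f i = 0
    · exact Filter.Eventually.of_forall fun j h => absurd h0 h
    · have h1 := hcon (f i) h0
      filter_upwards [h1] with j hj _ using hj
  obtain ⟨φ, hφ, hφE⟩ := Filter.extraction_forall_of_frequently (P := fun k j =>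
      (∏ v ∈ plc S, ∏ i, av v ((A v).mulVec (cv (x j)) i) ≤ ‖x j‖ ^ (-ε)) ∧ (k : ℝ) < ‖x j‖ ∧
      ∀ i ∈ Finset.range (k + 1), f i ≠ 0 → ∑ l, f i l * (x j l : ℚ) ≠ 0)
      (fun k => (hE k).frequently.filter_mono h𝒰)
  obtain ⟨u, hu0, huinf⟩ := hSUBT n S A ε (Set.range φ) x hn hS hA hε
    (Set.infinite_range_of_injective hφ.injective) (fun H => by
      refine ((Set.finite_Iio (⌈H⌉₊ + 1)).image φ).subset ?_
      rintro j ⟨⟨k, rfl⟩, hk⟩
      refine ⟨k, ?_, rfl⟩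
      have h1 := (hφE k).2.1
      have h2 : (k : ℝ) < H := lt_of_lt_of_le h1 hk
      have h3 : (k : ℝ) < (⌈H⌉₊ : ℝ) := lt_of_lt_of_le h2 (Nat.le_ceil H)
      have h4 : k < ⌈H⌉₊ := by exact_mod_cast h3
      exact Set.mem_Iio.2 (by omega))
    (by
      rintro j ⟨k, rfl⟩
      exact (hφE k).1)
  obtain ⟨i, rfl⟩ := hf u
  refine huinf (((Set.finite_Iio i).image φ).subset ?_)
  rintro j ⟨⟨k, rfl⟩, hk⟩
  refine ⟨k, ?_, rfl⟩
  rw [Set.mem_Iio]
  by_contra hik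
  exact (hφE k).2.2 i (Finset.mem_range.2 (by omega)) hu0 hk

/-- hypotheses: nonzero integers whose part outside `S` is small with respect to the quotients -/
structure MHyp (𝒰 : Ultrafilter ℕ) (S : Finset ℕ) (T : Type) [Fintype T] (x : ℕ → T → ℤ)
    (D : ℕ → ℝ) : Prop where
  ne : ∀ i, ∀ᶠ j in (𝒰 : Filter ℕ), x j i ≠ 0
  bd : ∀ i, ∀ᶠ j in (𝒰 : Filter ℕ), ∏ v ∈ plc S, av v (x j i) ≤ D j
  one : ∀ᶠ j in (𝒰 : Filter ℕ), 1 ≤ D j
  rat : ∀ i i', i ≠ i' → ∀ ε : ℝ, 0 < ε → ∀ᶠ j in (𝒰 : Filter ℕ),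
    D j ≤ ht ((x j i : ℚ) / x j i') ^ ε
  inf : ∀ i i', i ≠ i' → ∀ B : ℝ, ∀ᶠ j in (𝒰 : Filter ℕ), B ≤ ht ((x j i : ℚ) / x j i')

theorem MHyp.sub {𝒰 : Ultrafilter ℕ} {S : Finset ℕ} {T : Type} [Fintype T] {x : ℕ → T → ℤ}
    {D : ℕ → ℝ} (h : MHyp 𝒰 S T x D) {T' : Type} [Fintype T'] (f : T' → T)
    (hf : Function.Injective f) : MHyp 𝒰 S T' (fun j i => x j (f i)) D where
  ne i := h.ne (f i)
  bd i := h.bd (f i)
  one := h.one
  rat i i' hi := h.rat (f i) (f i') (fun e => hi (hf e))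
  inf i i' hi := h.inf (f i) (f i') (fun e => hi (hf e))

/-- no nontrivial linear relation -/
theorem indA (hAV : ST_AV) (hSUBT : ST_SUBT) (𝒰 : Ultrafilter ℕ)
    (h𝒰 : (𝒰 : Filter ℕ) ≤ atTop) (S : Finset ℕ) (hSp : ∀ p ∈ S, p.Prime) :
    ∀ (N : ℕ) (T : Type) [Fintype T] [DecidableEq T], Fintype.card T = N → Nonempty T →
    ∀ (x : ℕ → T → ℤ) (D : ℕ → ℝ) (a : T → ℚ), MHyp 𝒰 S T x D → (∀ i, a i ≠ 0) →
    ∀ᶠ j in (𝒰 : Filter ℕ), ∑ i, a i * (x j i : ℚ) ≠ 0 := by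
  obtain ⟨av0, -, hAV⟩ := hAV
  obtain ⟨apos, avm, -, -, avi, -, avp, avS, -⟩ := hAV S hSp
  intro N
  induction N using Nat.strong_induction_on with
  | _ N ih =>
  intro T _ _ hN hne x D a hx ha
  by_contra hcon
  rw [← Ultrafilter.eventually_not] at hcon
  simp only [not_not] at hcon
  obtain ⟨n, rfl⟩ : ∃ n, N = n + 1 :=
    Nat.exists_eq_succ_of_ne_zero (by rw [← hN]; exact Fintype.card_ne_zero)
  obtain ⟨e⟩ : Nonempty (Fin (n + 1) ≃ T) := ⟨(Fintype.equivFinOfCardEq hN).symm⟩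
  have hxne : ∀ᶠ j in (𝒰 : Filter ℕ), ∀ i, x j i ≠ 0 := Filter.eventually_all.2 hx.ne
  have hxbd : ∀ᶠ j in (𝒰 : Filter ℕ), ∀ i, ∏ v ∈ plc S, av v (x j i) ≤ D j :=
    Filter.eventually_all.2 hx.bd
  have hs : ∀ᶠ j in (𝒰 : Filter ℕ), a (e 0) * (x j (e 0) : ℚ) +
      ∑ k : Fin n, a (e k.succ) * (x j (e k.succ) : ℚ) = 0 := by
    filter_upwards [hcon] with j hj
    rw [← Equiv.sum_comp e, Fin.sum_univ_succ] at hj
    exact hj
  rcases Nat.lt_or_ge n 2 with hn | hn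
  · interval_cases n
    · obtain ⟨j, hj1, hj2⟩ := (hs.and hxne).exists
      rw [Fin.sum_univ_zero, add_zero] at hj1
      exact absurd hj1 (mul_ne_zero (ha _) (by exact_mod_cast hj2 _))
    · obtain ⟨c, hc⟩ : ∃ c : ℚ, c = -(a (e (Fin.succ 0)) / a (e 0)) := ⟨_, rfl⟩
      have h1 := hx.inf (e 0) (e (Fin.succ 0)) (fun h => Fin.succ_ne_zero 0 (e.injective h).symm)
        (ht c + 1)
      obtain ⟨j, ⟨hj1, hj2⟩, hj3⟩ := ((hs.and hxne).and h1).exists
      rw [Fin.sum_univ_one] at hj1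
      have h2 := ha (e 0)
      have h3 : (x j (e (Fin.succ 0)) : ℚ) ≠ 0 := by exact_mod_cast hj2 _
      have h4 : (x j (e 0) : ℚ) / x j (e (Fin.succ 0)) = c := by
        rw [hc]
        field_simp
        linarith
      rw [h4] at hj3
      linarith
  -- at least three terms
  have hn0 : 0 < n := by omega
  have hy : ∀ j, ∃ y : Fin n → ℤ, (∀ k, x j (e k.succ) =
      (univ.gcd fun k : Fin n => x j (e k.succ)) * y k) ∧ univ.gcd y = 1 := by
    intro j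
    obtain ⟨y, h1, h2⟩ := Finset.extract_gcd (s := (univ : Finset (Fin n)))
      (fun k => x j (e k.succ)) ⟨⟨0, hn0⟩, Finset.mem_univ _⟩
    exact ⟨y, fun k => h1 k (Finset.mem_univ _), h2⟩
  choose y hy1 hy2 using hy
  obtain ⟨g, hg⟩ : ∃ g : ℕ → ℤ, ∀ j, g j = univ.gcd fun k : Fin n => x j (e k.succ) :=
    ⟨_, fun _ => rfl⟩
  have hux : ∀ j k, x j (e k.succ) = g j * y j k := fun j k => by rw [hg]; exact hy1 j k
  have huxQ : ∀ j k, (x j (e k.succ) : ℚ) = g j * y j k := fun j k => by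
    rw [hux]; push_cast; rfl
  have hg0 : ∀ᶠ j in (𝒰 : Filter ℕ), g j ≠ 0 := by
    filter_upwards [hxne] with j hj h
    have h1 := hux j ⟨0, hn0⟩
    rw [h, zero_mul] at h1
    exact hj _ h1
  have hy0 : ∀ᶠ j in (𝒰 : Filter ℕ), ∀ k, y j k ≠ 0 := by
    filter_upwards [hxne] with j hj k h
    have h1 := hux j k
    rw [h, mul_zero] at h1
    exact hj _ h1
  obtain ⟨k0, hk0⟩ : ∃ k : Fin n, k = ⟨0, by omega⟩ := ⟨_, rfl⟩
  obtain ⟨k1, hk1⟩ : ∃ k : Fin n, k = ⟨1, by omega⟩ := ⟨_, rfl⟩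
  have hk01 : e k0.succ ≠ e k1.succ := by
    intro h
    have h1 := Fin.succ_injective _ (e.injective h)
    rw [hk0, hk1, Fin.mk.injEq] at h1
    omega
  -- the norm dominates the height of a quotient
  have hnorm : ∀ᶠ j in (𝒰 : Filter ℕ),
      ht ((x j (e k0.succ) : ℚ) / x j (e k1.succ)) ≤ ‖y j‖ := by
    filter_upwards [hg0, hy0] with j hj1 hj2
    have h1 : (x j (e k0.succ) : ℚ) / x j (e k1.succ) = (y j k0 : ℚ) / y j k1 := by
      rw [huxQ, huxQ]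
      have h2 : (g j : ℚ) ≠ 0 := by exact_mod_cast hj1
      have h3 : (y j k1 : ℚ) ≠ 0 := by exact_mod_cast hj2 k1
      field_simp
    rw [h1]
    refine ht_div_le _ _ (hj2 k1) _ ?_ ?_
    · have := norm_le_pi_norm (y j) k0
      rwa [Int.norm_eq_abs] at this
    · have := norm_le_pi_norm (y j) k1
      rwa [Int.norm_eq_abs] at this
  have hinf : ∀ B : ℝ, ∀ᶠ j in (𝒰 : Filter ℕ), B < ‖y j‖ := by
    intro B
    filter_upwards [hnorm, hx.inf (e k0.succ) (e k1.succ) hk01 (B + 1)] with j h1 h2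
    linarith
  have hDn : ∀ᶠ j in (𝒰 : Filter ℕ), D j ^ (n + 1) ≤ ‖y j‖ ^ (1 / 4 : ℝ) := by
    filter_upwards [hnorm, hx.rat (e k0.succ) (e k1.succ) hk01 (1 / (4 * (n + 1)))
      (by positivity), hx.one] with j h1 h2 h3
    have h4 : D j ≤ ‖y j‖ ^ (1 / (4 * (n + 1)) : ℝ) :=
      h2.trans (Real.rpow_le_rpow (ht_pos _).le h1 (by positivity))
    calc D j ^ (n + 1) ≤ (‖y j‖ ^ (1 / (4 * (n + 1)) : ℝ)) ^ (n + 1) :=
          pow_le_pow_left₀ (by linarith) h4 _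
      _ = ‖y j‖ ^ (1 / 4 : ℝ) := by
          rw [← Real.rpow_natCast, ← Real.rpow_mul (norm_nonneg _)]
          congr 1
          push_cast
          field_simp
  -- the maximal coordinates
  have hκ : ∀ j v, ∃ κ : Fin n, ∀ k, av v (y j k) ≤ av v (y j κ) := by
    intro j v
    obtain ⟨κ, -, h⟩ := Finset.exists_max_image (univ : Finset (Fin n))
      (fun k => av v (y j k)) ⟨⟨0, hn0⟩, Finset.mem_univ _⟩
    exact ⟨κ, fun k => h k (Finset.mem_univ _)⟩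
  choose κ hκ using hκ
  obtain ⟨K, hK⟩ : ∃ K : {v // v ∈ plc S} → Fin n, ∀ᶠ j in (𝒰 : Filter ℕ),
      (fun v : {v // v ∈ plc S} => κ j v.1) = K := by
    have h1 : ∀ᶠ j in (𝒰 : Filter ℕ), ∃ K : {v // v ∈ plc S} → Fin n,
        (fun v : {v // v ∈ plc S} => κ j v.1) = K := Filter.Eventually.of_forall fun j => ⟨_, rfl⟩
    rw [Ultrafilter.eventually_exists_iff] at h1
    exact h1
  obtain ⟨K', hK'⟩ : ∃ K' : Option ℕ → Fin n, ∀ v (hv : v ∈ plc S), K' v = K ⟨v, hv⟩ :=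
    ⟨fun v => if hv : v ∈ plc S then K ⟨v, hv⟩ else ⟨0, hn0⟩, fun v hv => by
      simp only [hv, dif_pos]⟩
  obtain ⟨w, hw⟩ : ∃ w : Fin n → ℚ, w = fun k => a (e k.succ) := ⟨_, rfl⟩
  obtain ⟨c0, hc0⟩ : ∃ c0 : ℝ, c0 = ∏ v ∈ plc S, av v (-a (e 0)) := ⟨_, rfl⟩
  have hc00 : 0 ≤ c0 := by
    rw [hc0]
    exact Finset.prod_nonneg fun v _ => av0 _ _
  have hprod : ∀ᶠ j in (𝒰 : Filter ℕ),
      ∏ v ∈ plc S, ∏ i, av v ((Helper89.SUB.frm (K' v) w).mulVec (cv (y j)) i) ≤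
      ‖y j‖ ^ (-(1 / 2 : ℝ)) := by
    filter_upwards [hs, hxne, hxbd, hg0, hy0, hK, hDn, hinf (c0 ^ 4 + 1), hx.one] with j
      hsj hxnej hxbdj hgj hyj hKj hDj hNj h1D
    obtain ⟨P, hP⟩ : ∃ P : ℝ, P = ∏ v ∈ plc S, ∏ i,
      av v ((Helper89.SUB.frm (K' v) w).mulVec (cv (y j)) i) := ⟨_, rfl⟩
    have hP0 : 0 ≤ P := by
      rw [hP]
      exact Finset.prod_nonneg fun v _ => Finset.prod_nonneg fun i _ => av0 _ _
    obtain ⟨L, hL⟩ : ∃ L : ℚ, L = ∑ l, w l * cv (y j) l := ⟨_, rfl⟩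
    have hgL : (g j : ℚ) * L = -a (e 0) * x j (e 0) := by
      have h2 : (g j : ℚ) * L = ∑ k : Fin n, a (e k.succ) * (x j (e k.succ) : ℚ) := by
        rw [hL, Finset.mul_sum]
        refine Finset.sum_congr rfl fun k _ => ?_
        rw [huxQ, hw, cv]
        ring
      rw [h2]
      linarith
    have hgp : 1 ≤ ∏ v ∈ plc S, av v (g j) := avp (g j) hgj
    have e1 : ∏ v ∈ plc S, av v L ≤ c0 * D j := by
      have h1 : ∏ v ∈ plc S, (av v (g j) * av v L) =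
          ∏ v ∈ plc S, (av v (-a (e 0)) * av v (x j (e 0))) :=
        Finset.prod_congr rfl fun v hv => by rw [← avm v hv, ← avm v hv, hgL]
      rw [Finset.prod_mul_distrib, Finset.prod_mul_distrib, ← hc0] at h1
      have h2 : 0 ≤ ∏ v ∈ plc S, av v L := Finset.prod_nonneg fun v _ => av0 _ _
      calc ∏ v ∈ plc S, av v L ≤ (∏ v ∈ plc S, av v (g j)) * ∏ v ∈ plc S, av v L := by
            nlinarith
        _ = c0 * ∏ v ∈ plc S, av v (x j (e 0)) := h1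
        _ ≤ c0 * D j := mul_le_mul_of_nonneg_left (hxbdj _) hc00
    have e3 : ∏ i, ∏ v ∈ plc S, av v (y j i) ≤ D j ^ n := by
      have h2 : ∀ i ∈ (univ : Finset (Fin n)), ∏ v ∈ plc S, av v (y j i) ≤ D j := by
        intro i _
        have h3 := hxbdj (e i.succ)
        have h4 : ∏ v ∈ plc S, av v (x j (e i.succ)) =
            (∏ v ∈ plc S, av v (g j)) * ∏ v ∈ plc S, av v (y j i) := by
          rw [← Finset.prod_mul_distrib]
          exact Finset.prod_congr rfl fun v hv => by rw [huxQ, avm v hv]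
        rw [h4] at h3
        have h5 : 0 ≤ ∏ v ∈ plc S, av v (y j i) := Finset.prod_nonneg fun v _ => av0 _ _
        nlinarith
      calc ∏ i, ∏ v ∈ plc S, av v (y j i) ≤ ∏ _i : Fin n, D j :=
            Finset.prod_le_prod (fun i _ => Finset.prod_nonneg fun v _ => av0 _ _) h2
        _ = D j ^ n := by simp
    have e2 : P * ∏ v ∈ plc S, av v (y j (K' v)) ≤ c0 * D j ^ (n + 1) := by
      rw [hP, ← Finset.prod_mul_distrib]
      have h1 : ∏ v ∈ plc S, ((∏ i, av v ((Helper89.SUB.frm (K' v) w).mulVec (cv (y j)) i)) *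
          av v (y j (K' v))) = ∏ v ∈ plc S, (av v L * ∏ i, av v (y j i)) := by
        refine Finset.prod_congr rfl fun v _ => ?_
        rw [hL]
        exact Helper89.SUB.frm_prod v (K' v) w (cv (y j))
      rw [h1, Finset.prod_mul_distrib, Finset.prod_comm]
      calc (∏ v ∈ plc S, av v L) * ∏ i, ∏ v ∈ plc S, av v (y j i)
          ≤ (c0 * D j) * D j ^ n := mul_le_mul e1 e3
            (Finset.prod_nonneg fun i _ => Finset.prod_nonneg fun v _ => av0 _ _)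
            (mul_nonneg hc00 (by linarith))
        _ = c0 * D j ^ (n + 1) := by ring
    have hKv : ∀ v ∈ plc S, κ j v = K' v := fun v hv => by
      rw [hK' v hv, ← hKj]
    have hn1 : ‖y j‖ ≤ av none (y j (K' none)) := by
      refine (pi_norm_le_iff_of_nonneg (av0 _ _)).2 fun k => ?_
      have h1 := hκ j none k
      rw [hKv none (by simp [plc])] at h1
      refine le_trans (le_of_eq ?_) h1
      rw [Int.norm_eq_abs]
      simp [av]
    have hn2 : ∀ p ∈ S, 1 ≤ av (some p) (y j (K' (some p))) := by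
      intro p hp
      have hpp := hSp p hp
      have : Fact p.Prime := ⟨hpp⟩
      obtain ⟨k, hk⟩ : ∃ k, ¬ (p : ℤ) ∣ y j k := by
        by_contra h
        push Not at h
        have h1 : (p : ℤ) ∣ univ.gcd (y j) := Finset.dvd_gcd fun k _ => h k
        rw [hy2] at h1
        have h2 : (p : ℤ) ≤ 1 := Int.le_of_dvd one_pos h1
        have := hpp.two_le
        omega
      have h1 := hκ j (some p) k
      rw [hKv (some p) (by simpa [plc] using hp)] at h1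
      refine le_trans (le_of_eq ?_) h1
      have h2 : padicNorm p ((y j k : ℤ) : ℚ) = 1 := (padicNorm.int_eq_one_iff _).2 hk
      show (1 : ℝ) = ((padicNorm p ((y j k : ℤ) : ℚ) : ℚ) : ℝ)
      rw [h2]
      simp
    have hn3 : ‖y j‖ ≤ ∏ v ∈ plc S, av v (y j (K' v)) := by
      rw [plc, Finset.prod_insertNone]
      have h1 : (1 : ℝ) ≤ ∏ p ∈ S, av (some p) (y j (K' (some p))) := by
        rw [← Finset.prod_const_one (s := S)]
        exact Finset.prod_le_prod (fun _ _ => zero_le_one) hn2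
      calc ‖y j‖ ≤ av none (y j (K' none)) := hn1
        _ = av none (y j (K' none)) * 1 := (mul_one _).symm
        _ ≤ _ := mul_le_mul_of_nonneg_left h1 (av0 _ _)
    have hn4 : 0 < ‖y j‖ := lt_trans (by positivity) hNj
    have hn5 : P * ‖y j‖ ≤ c0 * D j ^ (n + 1) := by
      refine le_trans ?_ e2
      exact mul_le_mul_of_nonneg_left hn3 hP0
    have hn6 : c0 ≤ ‖y j‖ ^ (1 / 4 : ℝ) := by
      have h1 : c0 ^ 4 ≤ ‖y j‖ := by linarith
      calc c0 = (c0 ^ 4) ^ (1 / 4 : ℝ) := by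
            rw [← Real.rpow_natCast, ← Real.rpow_mul hc00]
            norm_num
        _ ≤ ‖y j‖ ^ (1 / 4 : ℝ) := Real.rpow_le_rpow (by positivity) h1 (by norm_num)
    rw [← hP]
    have hn7 : ‖y j‖ ^ (-(1 / 2 : ℝ)) * ‖y j‖ = ‖y j‖ ^ (1 / 4 : ℝ) * ‖y j‖ ^ (1 / 4 : ℝ) := by
      nth_rewrite 2 [← Real.rpow_one ‖y j‖]
      rw [← Real.rpow_add hn4, ← Real.rpow_add hn4]
      norm_num
    refine le_of_mul_le_mul_right ?_ hn4
    rw [hn7]
    refine hn5.trans ?_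
    exact mul_le_mul hn6 hDj (pow_nonneg (by linarith) _) (by positivity)
  obtain ⟨b, hb0, hbi⟩ := subtU hSUBT 𝒰 h𝒰 n S (fun v => Helper89.SUB.frm (K' v) w) (1 / 2) y
    (by omega) hSp (fun v _ => Helper89.SUB.frm_det _ _ (by rw [hw]; exact ha _)) (by norm_num)
    hinf hprod
  have h1 := ih (Fintype.card {k : Fin n // b k ≠ 0})
    (lt_of_le_of_lt ((Fintype.card_subtype_le _).trans (by simp)) (Nat.lt_succ_self n))
    {k : Fin n // b k ≠ 0} rfl (by
      by_contra h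
      apply hb0
      funext k
      by_contra hk
      exact h ⟨⟨k, hk⟩⟩) (fun j k => x j (e k.1.succ)) D (fun k => b k.1)
    (hx.sub (fun k : {k : Fin n // b k ≠ 0} => e k.1.succ) (fun k k' h =>
      Subtype.ext (Fin.succ_injective _ (e.injective h)))) (fun k => k.2)
  obtain ⟨j, hj1, hj2⟩ := (h1.and hbi).exists
  apply hj1
  have h1 : ∑ k : {k : Fin n // b k ≠ 0}, b k.1 * (x j (e k.1.succ) : ℚ) =
      ∑ k : Fin n, b k * (x j (e k.succ) : ℚ) := by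
    rw [← Finset.sum_filter_of_ne (s := univ) (p := fun k => b k ≠ 0)
      (f := fun k : Fin n => b k * (x j (e k.succ) : ℚ)) (fun k _ hk h => hk (by
        show b k * (x j (e k.succ) : ℚ) = 0
        rw [h, zero_mul]))]
    exact (Finset.sum_subtype (univ.filter fun k => b k ≠ 0) (fun k => by simp)
      (fun k : Fin n => b k * (x j (e k.succ) : ℚ))).symm
  rw [h1]
  have h2 : ∑ k : Fin n, b k * (x j (e k.succ) : ℚ) =
      (g j : ℚ) * ∑ k : Fin n, b k * (y j k : ℚ) := by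
    rw [Finset.mul_sum]
    refine Finset.sum_congr rfl fun k _ => ?_
    rw [huxQ]
    ring
  rw [h2, hj2, mul_zero]

/-- lower bound at the place `v0` -/
theorem lowB (hAV : ST_AV) (hSUBT : ST_SUBT) (𝒰 : Ultrafilter ℕ)
    (h𝒰 : (𝒰 : Filter ℕ) ≤ atTop) (S : Finset ℕ) (hSp : ∀ p ∈ S, p.Prime)
    (T : Type) [Fintype T] [DecidableEq T] (hne : Nonempty T)
    (x : ℕ → T → ℤ) (D : ℕ → ℝ) (hx : MHyp 𝒰 S T x D) (v0 : Option ℕ) (hv0 : v0 ∈ plc S)
    (ε : ℝ) (hε : 0 < ε) (H : ℕ → ℝ) (hH : ∀ i, ∀ᶠ j in (𝒰 : Filter ℕ), |(x j i : ℝ)| ≤ H j) :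
    ∀ᶠ j in (𝒰 : Filter ℕ), ∀ i, av v0 (x j i) * H j ^ (-ε) ≤ av v0 (∑ i, (x j i : ℚ)) := by
  have hA := indA hAV hSUBT 𝒰 h𝒰 S hSp
  have hAV0 := hAV
  obtain ⟨av0, -, hAV⟩ := hAV
  obtain ⟨apos, avm, -, -, avi, -, avp, avS, -⟩ := hAV S hSp
  have hxne : ∀ᶠ j in (𝒰 : Filter ℕ), ∀ i, x j i ≠ 0 := Filter.eventually_all.2 hx.ne
  have hxbd : ∀ᶠ j in (𝒰 : Filter ℕ), ∀ i, ∏ v ∈ plc S, av v (x j i) ≤ D j :=
    Filter.eventually_all.2 hx.bd
  have hHa : ∀ᶠ j in (𝒰 : Filter ℕ), ∀ i, |(x j i : ℝ)| ≤ H j := Filter.eventually_all.2 hH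
  have hu1 : ∀ᶠ j in (𝒰 : Filter ℕ), ∀ i, (1 : ℝ) ≤ |(x j i : ℝ)| := by
    filter_upwards [hxne] with j hj i
    have h2 : 1 ≤ |x j i| := Int.one_le_abs (hj i)
    exact_mod_cast h2
  obtain ⟨i1⟩ := hne
  have hH1 : ∀ᶠ j in (𝒰 : Filter ℕ), 1 ≤ H j := by
    filter_upwards [hHa, hu1] with j h1 h2
    exact (h2 i1).trans (h1 i1)
  rcases subsingleton_or_nontrivial T with hsub | hnt
  · filter_upwards [hH1] with j hj i
    have h0 : (Finset.univ : Finset T) = {i} := by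
      ext i'
      simp [Subsingleton.elim i' i]
    rw [h0, Finset.sum_singleton]
    have h4 : H j ^ (-ε) ≤ 1 := Real.rpow_le_one_of_one_le_of_nonpos hj (by linarith)
    calc av v0 (x j i) * H j ^ (-ε) ≤ av v0 (x j i) * 1 :=
          mul_le_mul_of_nonneg_left h4 (av0 _ _)
      _ = av v0 (x j i) := mul_one _
  by_contra hcon
  rw [← Ultrafilter.eventually_not] at hcon
  -- the index of the largest term
  have hmax : ∀ j, ∃ i0, ∀ i, av v0 (x j i) ≤ av v0 (x j i0) := by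
    intro j
    obtain ⟨i0, -, h⟩ := Finset.exists_max_image (Finset.univ : Finset T)
      (fun i => av v0 (x j i)) ⟨i1, Finset.mem_univ _⟩
    exact ⟨i0, fun i => h i (Finset.mem_univ i)⟩
  have hmax2 : ∀ᶠ j in (𝒰 : Filter ℕ), ∃ i0, ∀ i, av v0 (x j i) ≤ av v0 (x j i0) :=
    Filter.Eventually.of_forall hmax
  rw [Ultrafilter.eventually_exists_iff] at hmax2
  obtain ⟨i0, hi0⟩ := hmax2
  set n := Fintype.card T with hn
  set e : T ≃ Fin n := Fintype.equivFin T with he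
  set y : ℕ → Fin n → ℤ := fun j k => x j (e.symm k) with hy
  have hn1 : 1 ≤ n := Fintype.card_pos_iff.2 ⟨i1⟩
  have hxle : ∀ j i, |(x j i : ℝ)| ≤ ‖y j‖ := by
    intro j i
    have h1 := norm_le_pi_norm (y j) (e i)
    rw [Int.norm_eq_abs] at h1
    simpa [hy] using h1
  have hypos : ∀ᶠ j in (𝒰 : Filter ℕ), 0 < ‖y j‖ := by
    filter_upwards [hu1] with j hj
    exact lt_of_lt_of_le (lt_of_lt_of_le one_pos (hj i1)) (hxle j i1)
  have hxH : ∀ᶠ j in (𝒰 : Filter ℕ), ‖y j‖ ≤ H j := by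
    filter_upwards [hHa, hH1] with j hj hj1
    rw [pi_norm_le_iff_of_nonneg (by linarith)]
    intro k
    rw [Int.norm_eq_abs]
    exact hj (e.symm k)
  have hsm : ∀ᶠ j in (𝒰 : Filter ℕ),
      av v0 (∑ i, (x j i : ℚ)) ≤ av v0 (x j i0) * ‖y j‖ ^ (-ε) := by
    filter_upwards [hcon, hi0, hypos, hxH] with j h1 h2 h3 h4
    push Not at h1
    obtain ⟨i, hi⟩ := h1
    refine hi.le.trans ?_
    have h5 : H j ^ (-ε) ≤ ‖y j‖ ^ (-ε) := Real.rpow_le_rpow_of_nonpos h3 h4 (by linarith)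
    exact mul_le_mul (h2 i) h5 (Real.rpow_nonneg (h3.le.trans h4) _) (av0 _ _)
  obtain ⟨i, i', hii⟩ := exists_pair_ne T
  have hrat : ∀ᶠ j in (𝒰 : Filter ℕ), ht ((x j i : ℚ) / x j i') ≤ ‖y j‖ := by
    filter_upwards [hxne] with j hj
    exact ht_div_le _ _ (hj i') _ (hxle j i) (hxle j i')
  have hinf : ∀ B : ℝ, ∀ᶠ j in (𝒰 : Filter ℕ), B < ‖y j‖ := by
    intro B
    filter_upwards [hrat, hx.inf i i' hii (B + 1)] with j h1 h2
    linarith
  have hDn : ∀ᶠ j in (𝒰 : Filter ℕ), D j ^ n ≤ ‖y j‖ ^ (ε / 2 : ℝ) := by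
    have hnpos : (0 : ℝ) < n := by exact_mod_cast hn1
    filter_upwards [hrat, hx.rat i i' hii (ε / (2 * n)) (by positivity), hx.one] with j h1 h2 h3
    have h4 : D j ≤ ‖y j‖ ^ (ε / (2 * n) : ℝ) :=
      h2.trans (Real.rpow_le_rpow (ht_pos _).le h1 (by positivity))
    calc D j ^ n ≤ (‖y j‖ ^ (ε / (2 * n) : ℝ)) ^ n :=
          pow_le_pow_left₀ (by linarith) h4 _
      _ = ‖y j‖ ^ (ε / 2 : ℝ) := by
          rw [← Real.rpow_natCast, ← Real.rpow_mul (norm_nonneg _)]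
          congr 1
          field_simp
  -- the forms
  set b : Fin n → ℚ := fun _ => 1 with hb
  set A : Option ℕ → Matrix (Fin n) (Fin n) ℚ := fun v =>
    if v = v0 then (1 : Matrix (Fin n) (Fin n) ℚ).updateRow (e i0) b else 1 with hA'
  have hdet : ∀ v ∈ plc S, (A v).det ≠ 0 := by
    intro v _
    simp only [hA']
    split_ifs
    · rw [Helper8.SUB.det_upd]
      norm_num [hb]
    · simp
  have hprod : ∀ᶠ j in (𝒰 : Filter ℕ),
      ∏ v ∈ plc S, ∏ i, av v ((A v).mulVec (cv (y j)) i) ≤ ‖y j‖ ^ (-(ε / 2)) := by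
    filter_upwards [hsm, hxne, hxbd, hDn, hypos, hx.one] with j h1 h2 h3 h4 h5 h6
    have hup : 0 < av v0 (x j i0) := by
      refine apos v0 hv0 _ ?_
      exact_mod_cast h2 i0
    have hfac : ∀ v, ∏ i, av v ((A v).mulVec (cv (y j)) i) =
        (∏ i, av v ((y j i : ℤ) : ℚ)) *
          (if v = v0 then av v0 (∑ i, (x j i : ℚ)) / av v0 (x j i0) else 1) := by
      intro v
      by_cases hv : v = v0
      · subst hv
        rw [if_pos rfl]
        have k1 : ∀ i, i ≠ e i0 → (A v).mulVec (cv (y j)) i = ((y j i : ℤ) : ℚ) := by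
          intro i hi
          simp only [hA', if_true]
          exact Helper8.SUB.upd_ne i (e i0) b (cv (y j)) hi
        have k2 : (A v).mulVec (cv (y j)) (e i0) = ∑ i, (x j i : ℚ) := by
          simp only [hA', if_true]
          rw [Helper8.SUB.upd_self]
          simp only [hb, one_mul]
          exact Equiv.sum_comp e.symm (fun i => (x j i : ℚ))
        rw [← Finset.mul_prod_erase Finset.univ _ (Finset.mem_univ (e i0)),
          ← Finset.mul_prod_erase Finset.univ (fun i => av v ((y j i : ℤ) : ℚ))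
            (Finset.mem_univ (e i0)), k2]
        have k3 : ∏ i ∈ Finset.univ.erase (e i0), av v ((A v).mulVec (cv (y j)) i) =
            ∏ i ∈ Finset.univ.erase (e i0), av v ((y j i : ℤ) : ℚ) := by
          refine Finset.prod_congr rfl fun i hi => ?_
          rw [k1 i (Finset.ne_of_mem_erase hi)]
        rw [k3]
        have k4 : av v ((y j (e i0) : ℤ) : ℚ) = av v (x j i0) := by
          simp [hy]
        rw [k4]
        have k5 : av v (x j i0) ≠ 0 := hup.ne'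
        field_simp
      · rw [if_neg hv, mul_one]
        refine Finset.prod_congr rfl fun i _ => ?_
        have : A v = 1 := by simp [hA', hv]
        rw [this, Matrix.one_mulVec]
        rfl
    have hall : ∏ v ∈ plc S, ∏ i, av v ((y j i : ℤ) : ℚ) ≤ D j ^ n := by
      rw [Finset.prod_comm]
      calc ∏ i, ∏ v ∈ plc S, av v ((y j i : ℤ) : ℚ) ≤ ∏ _i : Fin n, D j :=
            Finset.prod_le_prod (fun i _ => Finset.prod_nonneg fun v _ => av0 _ _)
              (fun i _ => h3 (e.symm i))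
        _ = D j ^ n := by simp
    have htot : ∏ v ∈ plc S, ∏ i, av v ((A v).mulVec (cv (y j)) i) =
        (∏ v ∈ plc S, ∏ i, av v ((y j i : ℤ) : ℚ)) *
          (av v0 (∑ i, (x j i : ℚ)) / av v0 (x j i0)) := by
      rw [Finset.prod_congr rfl fun v _ => hfac v, Finset.prod_mul_distrib,
        Finset.prod_ite_eq' (plc S) v0, if_pos hv0]
    rw [htot]
    have k6 : av v0 (∑ i, (x j i : ℚ)) / av v0 (x j i0) ≤ ‖y j‖ ^ (-ε) := by
      rw [div_le_iff₀ hup, mul_comm]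
      exact h1
    calc (∏ v ∈ plc S, ∏ i, av v ((y j i : ℤ) : ℚ)) *
          (av v0 (∑ i, (x j i : ℚ)) / av v0 (x j i0))
        ≤ D j ^ n * ‖y j‖ ^ (-ε) := mul_le_mul hall k6
          (div_nonneg (av0 _ _) hup.le) (pow_nonneg (by linarith) _)
      _ ≤ ‖y j‖ ^ (ε / 2 : ℝ) * ‖y j‖ ^ (-ε) :=
          mul_le_mul_of_nonneg_right h4 (Real.rpow_nonneg h5.le _)
      _ = ‖y j‖ ^ (-(ε / 2)) := by
          rw [← Real.rpow_add h5]
          congr 1
          ring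
  obtain ⟨w, hw0, hwU⟩ := subtU hSUBT 𝒰 h𝒰 n S A (ε / 2) y hn1 hSp hdet (by positivity) hinf
    hprod
  have h1 := hA (Fintype.card {k : Fin n // w k ≠ 0}) {k : Fin n // w k ≠ 0} rfl (by
      by_contra h
      apply hw0
      funext k
      by_contra hk
      exact h ⟨⟨k, hk⟩⟩) (fun j k => x j (e.symm k.1)) D (fun k => w k.1)
    (hx.sub (fun k : {k : Fin n // w k ≠ 0} => e.symm k.1) (fun k k' h =>
      Subtype.ext (e.symm.injective h))) (fun k => k.2)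
  obtain ⟨j, hj1, hj2⟩ := (h1.and hwU).exists
  apply hj1
  refine Eq.trans ?_ hj2
  rw [← Finset.sum_filter_of_ne (s := univ) (p := fun k => w k ≠ 0)
    (f := fun k : Fin n => w k * (y j k : ℚ)) (fun k _ hk h => hk (by
      show w k * (y j k : ℚ) = 0
      rw [h, zero_mul]))]
  exact (Finset.sum_subtype (univ.filter fun k => w k ≠ 0) (fun k => by simp)
    (fun k : Fin n => w k * (y j k : ℚ))).symm

end Pool.Agent.Helper9.MT
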