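import Pool.Agent.Helper9.MT.Fam
import Pool.Agent.Helper66.SUB.LAUB

/-!
Moving targets: families of Laurent polynomials with slow coefficients.
-/

set_option autoImplicit false

namespace Pool.Agent.Helper9.MT

open Finset Filter Pool.Agent.Helper70.SUB Pool.Agent.Helper66.SUB

variable {𝒰 : Ultrafilter ℕ} {H : ℕ → ℝ} {r : ℕ}

theorem SLF.single (m : Fin r → ℤ) {c : ℕ → ℚ} (hc : Slow 𝒰 H c) :
    SLF 𝒰 H (fun j => AddMonoidAlgebra.single m (c j) : ℕ → Lau r) :=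
  ⟨Unit, inferInstance, fun _ => m, fun j _ => c j, fun _ => hc, fun j => by simp⟩

theorem SLF.one (hH : Tendsto H 𝒰 atTop) : SLF 𝒰 H (fun _ => (1 : Lau r)) :=
  SLF.single (r := r) 0 (Slow.const hH 1)

theorem SLF.zero (hH : Tendsto H 𝒰 atTop) : SLF 𝒰 H (fun _ => (0 : Lau r)) := by
  have := SLF.single (r := r) (𝒰 := 𝒰) (H := H) 0 (Slow.const hH 0)
  simpa using this

theorem SLF.add {F G : ℕ → Lau r} (hF : SLF 𝒰 H F) (hG : SLF 𝒰 H G) :
    SLF 𝒰 H (fun j => F j + G j) := by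
  obtain ⟨ι, _, m, c, hc, hF⟩ := hF
  obtain ⟨κ, _, m', c', hc', hG⟩ := hG
  refine ⟨ι ⊕ κ, inferInstance, Sum.elim m m', fun j => Sum.elim (c j) (c' j), ?_, fun j => ?_⟩
  · rintro (i | i)
    · exact hc i
    · exact hc' i
  · beta_reduce
    rw [hF, hG, Fintype.sum_sum_type]
    rfl

theorem SLF.mul (hH : Tendsto H 𝒰 atTop) {F G : ℕ → Lau r} (hF : SLF 𝒰 H F)
    (hG : SLF 𝒰 H G) : SLF 𝒰 H (fun j => F j * G j) := by
  obtain ⟨ι, _, m, c, hc, hF⟩ := hF
  obtain ⟨κ, _, m', c', hc', hG⟩ := hG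
  refine ⟨ι × κ, inferInstance, fun x => m x.1 + m' x.2, fun j x => c j x.1 * c' j x.2, ?_,
    fun j => ?_⟩
  · rintro ⟨i, k⟩
    exact (hc i).mul hH (hc' k)
  · beta_reduce
    rw [hF, hG, Finset.sum_mul_sum, Fintype.sum_prod_type]
    refine Finset.sum_congr rfl fun i _ => Finset.sum_congr rfl fun k _ => ?_
    rw [AddMonoidAlgebra.single_mul_single]

theorem SLF.smul (hH : Tendsto H 𝒰 atTop) {F : ℕ → Lau r} {d : ℕ → ℚ} (hd : Slow 𝒰 H d)
    (hF : SLF 𝒰 H F) : SLF 𝒰 H (fun j => d j • F j) := by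
  obtain ⟨ι, _, m, c, hc, hF⟩ := hF
  refine ⟨ι, inferInstance, m, fun j i => d j * c j i, fun i => hd.mul hH (hc i), fun j => ?_⟩
  beta_reduce
  rw [hF, Finset.smul_sum]
  refine Finset.sum_congr rfl fun i _ => ?_
  rw [AddMonoidAlgebra.smul_single, smul_eq_mul]

theorem SLF.neg (hH : Tendsto H 𝒰 atTop) {F : ℕ → Lau r} (hF : SLF 𝒰 H F) :
    SLF 𝒰 H (fun j => -F j) := by
  have := hF.smul hH (Slow.const hH (-1))
  simpa using this

theorem SLF.sub (hH : Tendsto H 𝒰 atTop) {F G : ℕ → Lau r} (hF : SLF 𝒰 H F)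
    (hG : SLF 𝒰 H G) : SLF 𝒰 H (fun j => F j - G j) := by
  simp only [sub_eq_add_neg]
  exact hF.add (hG.neg hH)

theorem SLF.pow (hH : Tendsto H 𝒰 atTop) {F : ℕ → Lau r} (hF : SLF 𝒰 H F) (n : ℕ) :
    SLF 𝒰 H (fun j => F j ^ n) := by
  induction n with
  | zero =>
    simp only [pow_zero]
    exact SLF.one hH
  | succ n ih =>
    simp only [pow_succ]
    exact ih.mul hH hF

theorem SLF.sum (hH : Tendsto H 𝒰 atTop) {κ : Type} (s : Finset κ) {F : ℕ → κ → Lau r}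
    (hF : ∀ i ∈ s, SLF 𝒰 H (fun j => F j i)) : SLF 𝒰 H (fun j => ∑ i ∈ s, F j i) := by
  classical
  induction s using Finset.induction_on with
  | empty =>
    simp only [Finset.sum_empty]
    exact SLF.zero hH
  | insert a s ha ih =>
    simp only [Finset.sum_insert ha]
    exact (hF a (Finset.mem_insert_self _ _)).add (ih fun i hi => hF i (Finset.mem_insert_of_mem hi))

theorem drv_sum (δ : Fin r → ℤ) {κ : Type} (s : Finset κ) (F : κ → Lau r) :
    drv δ (∑ i ∈ s, F i) = ∑ i ∈ s, drv δ (F i) := by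
  classical
  induction s using Finset.induction_on with
  | empty => rw [Finset.sum_empty, Finset.sum_empty, drv_zero]
  | insert a s ha ih => rw [Finset.sum_insert ha, Finset.sum_insert ha, drv_add, ih]

theorem evL_sum (w : Fin r → ℚ) {κ : Type} (s : Finset κ) (F : κ → Lau r) :
    evL w (∑ i ∈ s, F i) = ∑ i ∈ s, evL w (F i) := by
  classical
  induction s using Finset.induction_on with
  | empty => rw [Finset.sum_empty, Finset.sum_empty, evL_zero]
  | insert a s ha ih => rw [Finset.sum_insert ha, Finset.sum_insert ha, evL_add, ih]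

theorem SLF.drv (hH : Tendsto H 𝒰 atTop) {F : ℕ → Lau r} (hF : SLF 𝒰 H F) (δ : Fin r → ℤ) :
    SLF 𝒰 H (fun j => drv δ (F j)) := by
  obtain ⟨ι, _, m, c, hc, hF⟩ := hF
  refine ⟨ι, inferInstance, m, fun j i => ((∑ k, δ k * m i k : ℤ) : ℚ) * c j i,
    fun i => (Slow.const hH _).mul hH (hc i), fun j => ?_⟩
  beta_reduce
  rw [hF, drv_sum]
  exact Finset.sum_congr rfl fun i _ => drv_single _ _ _

theorem SLF.coeff (hH : Tendsto H 𝒰 atTop) {F : ℕ → Lau r} (hF : SLF 𝒰 H F)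
    (m' : Fin r → ℤ) : Slow 𝒰 H (fun j => (F j).coeff m') := by
  classical
  obtain ⟨ι, _, m, c, hc, hF⟩ := hF
  have h1 : ∀ j, (F j).coeff m' = ∑ i, if m i = m' then c j i else 0 := by
    intro j
    rw [hF, AddMonoidAlgebra.coeff_sum, Finsupp.finsetSum_apply]
    simp only [AddMonoidAlgebra.coeff_single, Finsupp.single_apply]
  simp only [h1]
  refine Slow.sum _ hH fun i _ => ?_
  by_cases h : m i = m'
  · simp only [h, if_true]
    exact hc i
  · simp only [h, if_false]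
    exact Slow.const hH 0

theorem SLF.supp {F : ℕ → Lau r} (hF : SLF 𝒰 H F) :
    ∃ T : Finset (Fin r → ℤ), ∀ j, (F j).coeff.support ⊆ T := by
  classical
  obtain ⟨ι, _, m, c, hc, hF⟩ := hF
  refine ⟨univ.image m, fun j m' hm' => ?_⟩
  by_contra h
  rw [Finsupp.mem_support_iff] at hm'
  apply hm'
  rw [hF, AddMonoidAlgebra.coeff_sum, Finsupp.finsetSum_apply]
  refine Finset.sum_eq_zero fun i _ => ?_
  rw [AddMonoidAlgebra.coeff_single, Finsupp.single_apply, if_neg]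
  rintro rfl
  exact h (Finset.mem_image_of_mem _ (Finset.mem_univ _))

theorem SLF.supp_eq {F : ℕ → Lau r} (hF : SLF 𝒰 H F) :
    ∃ T : Finset (Fin r → ℤ), ∀ᶠ j in (𝒰 : Filter ℕ), (F j).coeff.support = T := by
  obtain ⟨T0, hT0⟩ := hF.supp
  have h1 : ∀ᶠ j in (𝒰 : Filter ℕ), ∃ T ∈ (↑T0.powerset : Set (Finset (Fin r → ℤ))),
      (F j).coeff.support = T :=
    Filter.Eventually.of_forall fun j => ⟨_, by simpa using hT0 j, rfl⟩
  rw [Ultrafilter.eventually_exists_mem_iff (Finset.finite_toSet _)] at h1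
  obtain ⟨T, -, hT⟩ := h1
  exact ⟨T, hT⟩

/-- a system of quantities which are independent modulo slow ones -/
structure Sys (𝒰 : Ultrafilter ℕ) (H : ℕ → ℝ) (S : Finset ℕ) (r : ℕ) (w : ℕ → Fin r → ℚ)
    (A : ℝ) : Prop where
  pos : ∀ j k, 0 < w j k
  qs : ∀ k, ∀ᶠ j in (𝒰 : Filter ℕ), QS S (w j k)
  A0 : 0 ≤ A
  bd : ∀ k, ∀ᶠ j in (𝒰 : Filter ℕ), ht (w j k) ≤ H j ^ A
  ns : ∀ l : Fin r → ℤ, l ≠ 0 → ¬ Slow 𝒰 H (fun j => mon (w j) l)

/-- lower bounds for families at a place -/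
theorem slb (hAV : ST_AV) (hSUBT : ST_SUBT) (h𝒰 : (𝒰 : Filter ℕ) ≤ atTop)
    (hH : Tendsto H 𝒰 atTop) (S : Finset ℕ) (hS : ∀ p ∈ S, p.Prime) {w : ℕ → Fin r → ℚ} {A : ℝ}
    (hw : Sys 𝒰 H S r w A) {F : ℕ → Lau r} (hF : SLF 𝒰 H F) (v : Option ℕ) (hv : v ∈ plc S)
    (ε : ℝ) (hε : 0 < ε) :
    ∀ᶠ j in (𝒰 : Filter ℕ), ∀ m ∈ (F j).coeff.support,
      av v (mon (w j) m) * H j ^ (-ε) ≤ av v (evL (w j) (F j)) := by
  classical
  obtain ⟨T, hT⟩ := hF.supp_eq
  rcases T.eq_empty_or_nonempty with h0 | h0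
  · filter_upwards [hT] with j hj m hm
    rw [hj, h0] at hm
    exact absurd hm (Finset.notMem_empty _)
  have hne : Nonempty {m // m ∈ T} := ⟨⟨_, h0.choose_spec⟩⟩
  obtain ⟨K, hK⟩ : ∃ K : ℕ, ∀ m ∈ T, ∑ k, (m k).natAbs ≤ K :=
    ⟨∑ m ∈ T, ∑ k, (m k).natAbs, fun m hm =>
      Finset.single_le_sum (f := fun m : Fin r → ℤ => ∑ k, (m k).natAbs)
        (fun _ _ => Nat.zero_le _) hm⟩
  have hqa : ∀ᶠ j in (𝒰 : Filter ℕ), ∀ k, QS S (w j k) := Filter.eventually_all.2 hw.qs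
  have hba : ∀ᶠ j in (𝒰 : Filter ℕ), ∀ k, ht (w j k) ≤ H j ^ A := Filter.eventually_all.2 hw.bd
  have h1 := lbq hAV hSUBT h𝒰 hH S hS {m // m ∈ T} (fun j m => (F j).coeff m.1)
    (fun j m => mon (w j) m.1) (fun m => hF.coeff hH m.1) (fun m => by
      filter_upwards [hT] with j hj
      rw [← Finsupp.mem_support_iff, hj]
      exact m.2) (fun m => by
      filter_upwards [hqa] with j hj
      exact QS.mono _ _ hj) (fun m m' hmm h => by
      refine hw.ns (m.1 - m'.1) (sub_ne_zero.2 fun e => hmm (Subtype.ext e)) ?_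
      refine h.congr (Filter.Eventually.of_forall fun j => ?_)
      show mono (w j) m.1 / mono (w j) m'.1 = mono (w j) (m.1 - m'.1)
      rw [sub_eq_add_neg, mono_add _ (hw.pos j), mono_neg, div_eq_mul_inv]) (A * K)
    (mul_nonneg hw.A0 (Nat.cast_nonneg K)) (fun m => by
      filter_upwards [hba, ev_pos hH] with j hj hj1
      have hH0 : 0 < H j := by linarith
      have hHA : 1 ≤ H j ^ A := Real.one_le_rpow hj1 hw.A0
      refine (ht_mono_le (w j) m.1 (H j ^ A) hj).trans ?_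
      rw [Real.rpow_mul hH0.le, Real.rpow_natCast]
      exact pow_le_pow_right₀ hHA (hK m.1 m.2)) v hv ε hε
  filter_upwards [h1, hT] with j hj1 hj2 m hm
  rw [hj2] at hm
  have h2 := hj1 ⟨m, hm⟩
  have h3 : ∑ i : {m // m ∈ T}, (F j).coeff i.1 * mon (w j) i.1 = evL (w j) (F j) := by
    unfold evL
    rw [hj2]
    exact Finset.sum_coe_sort T (fun m => (F j).coeff m * mon (w j) m)
  rw [h3] at h2
  exact h2

/-- injectivity of the evaluation -/
theorem sinj (hAV : ST_AV) (hSUBT : ST_SUBT) (h𝒰 : (𝒰 : Filter ℕ) ≤ atTop)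
    (hH : Tendsto H 𝒰 atTop) (S : Finset ℕ) (hS : ∀ p ∈ S, p.Prime) {w : ℕ → Fin r → ℚ} {A : ℝ}
    (hw : Sys 𝒰 H S r w A) {F : ℕ → Lau r} (hF : SLF 𝒰 H F) :
    ∀ᶠ j in (𝒰 : Filter ℕ), evL (w j) (F j) = 0 → F j = 0 := by
  have h1 := slb hAV hSUBT h𝒰 hH S hS hw hF none (by simp [plc]) 1 one_pos
  obtain ⟨av0, avz, hAV⟩ := hAV
  obtain ⟨apos, -⟩ := hAV S hS
  filter_upwards [h1, ev_pos hH] with j hj hj1 h0
  have hH0 : 0 < H j := by linarith
  apply AddMonoidAlgebra.ext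
  by_contra hne
  obtain ⟨m, hm⟩ : ((F j).coeff).support.Nonempty := by
    rw [Finset.nonempty_iff_ne_empty]
    intro h
    apply hne
    rw [Finsupp.support_eq_empty.1 h]
    rfl
  have h2 := hj m hm
  rw [h0, avz] at h2
  have h3 : 0 < av none (mon (w j) m) :=
    apos none (by simp [plc]) _ (mono_pos (w j) (hw.pos j) m).ne'
  have h4 : 0 < H j ^ (-1 : ℝ) := Real.rpow_pos_of_pos hH0 _
  nlinarith [mul_pos h3 h4]

/-- derivatives are not larger than the value -/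
theorem sdb (hAV : ST_AV) (hSUBT : ST_SUBT) (h𝒰 : (𝒰 : Filter ℕ) ≤ atTop)
    (hH : Tendsto H 𝒰 atTop) (S : Finset ℕ) (hS : ∀ p ∈ S, p.Prime) {w : ℕ → Fin r → ℚ} {A : ℝ}
    (hw : Sys 𝒰 H S r w A) {F : ℕ → Lau r} (hF : SLF 𝒰 H F) (δ : Fin r → ℤ) (v : Option ℕ)
    (hv : v ∈ plc S) (ε : ℝ) (hε : 0 < ε) :
    ∀ᶠ j in (𝒰 : Filter ℕ),
      av v (evL (w j) (drv δ (F j))) ≤ H j ^ ε * av v (evL (w j) (F j)) := by
  classical
  have h1 := slb hAV hSUBT h𝒰 hH S hS hw hF v hv (ε / 3) (by positivity)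
  obtain ⟨T, hT⟩ := hF.supp_eq
  have h2 : ∀ᶠ j in (𝒰 : Filter ℕ), ∀ m ∈ T,
      ht (((∑ k, δ k * m k : ℤ) : ℚ) * (F j).coeff m) ≤ H j ^ (ε / 3) :=
    (Filter.eventually_all_finset T).2 fun m _ =>
      ((Slow.const hH _).mul hH (hF.coeff hH m)) _ (by positivity)
  have hAV' := hAV
  obtain ⟨av0, avz, hAV'⟩ := hAV'
  obtain ⟨apos, amul, -, -, -, -, -, -, asum⟩ := hAV' S hS
  filter_upwards [h1, hT, h2, ev_pos hH, ev_rpow hH (ε / 3) (by positivity) (T.card + 1)]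
    with j a1 a2 a3 a4 a5
  have hH0 : 0 < H j := by linarith
  have e1 : evL (w j) (drv δ (F j)) =
      ∑ m ∈ T, (((∑ k, δ k * m k : ℤ) : ℚ) * (F j).coeff m) * mon (w j) m := by
    unfold drv
    rw [evL_sum, a2]
    exact Finset.sum_congr rfl fun m _ => evL_single _ _ _
  rw [e1]
  have e2 : ∀ m ∈ T, av v ((((∑ k, δ k * m k : ℤ) : ℚ) * (F j).coeff m) * mon (w j) m) ≤
      H j ^ (ε / 3) * (H j ^ (ε / 3) * av v (evL (w j) (F j))) := by
    intro m hm
    rw [amul v hv]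
    have b1 := a1 m (by rw [a2]; exact hm)
    have b2 : av v (mon (w j) m) ≤ H j ^ (ε / 3) * av v (evL (w j) (F j)) := by
      have b3 : H j ^ (ε / 3) * H j ^ (-(ε / 3)) = 1 := by
        rw [← Real.rpow_add hH0]
        simp
      calc av v (mon (w j) m) = H j ^ (ε / 3) * (av v (mon (w j) m) * H j ^ (-(ε / 3))) := by
            rw [mul_comm (av v _), ← mul_assoc, b3, one_mul]
        _ ≤ _ := mul_le_mul_of_nonneg_left b1 (Real.rpow_nonneg hH0.le _)
    exact mul_le_mul ((av_le_ht hAV S hS v hv _).trans (a3 m hm)) b2 (av0 _ _)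
      (Real.rpow_nonneg hH0.le _)
  have hb0 : 0 ≤ H j ^ (ε / 3) * (H j ^ (ε / 3) * av v (evL (w j) (F j))) :=
    mul_nonneg (Real.rpow_nonneg hH0.le _) (mul_nonneg (Real.rpow_nonneg hH0.le _) (av0 _ _))
  have e3 := asum v hv _ T _ _ hb0 e2
  refine e3.trans ?_
  have e4 : (if v = none then (T.card : ℝ) else 1) ≤ H j ^ (ε / 3) := by
    split_ifs
    · linarith
    · have : (0 : ℝ) ≤ T.card := Nat.cast_nonneg _
      linarith
  calc (if v = none then (T.card : ℝ) else 1) *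
        (H j ^ (ε / 3) * (H j ^ (ε / 3) * av v (evL (w j) (F j))))
      ≤ H j ^ (ε / 3) * (H j ^ (ε / 3) * (H j ^ (ε / 3) * av v (evL (w j) (F j)))) :=
        mul_le_mul_of_nonneg_right e4 hb0
    _ = (H j ^ (ε / 3) * H j ^ (ε / 3) * H j ^ (ε / 3)) * av v (evL (w j) (F j)) := by ring
    _ = H j ^ ε * av v (evL (w j) (F j)) := by
        rw [← Real.rpow_add hH0, ← Real.rpow_add hH0]
        congr 2
        ring

/-- powers -/
theorem evL_one (w : Fin r → ℚ) : evL w (1 : Lau r) = 1 := by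
  have h := evL_single w 0 1
  have h2 : mon w 0 = 1 := by simp [mon]
  rw [h2, mul_one] at h
  exact h

theorem evL_pow (w : Fin r → ℚ) (hw : ∀ k, 0 < w k) (F : Lau r) (n : ℕ) :
    evL w (F ^ n) = evL w F ^ n := by
  induction n with
  | zero => rw [pow_zero, pow_zero, evL_one]
  | succ n ih => rw [pow_succ, pow_succ, evL_mul w hw, ih]

theorem drv_one (δ : Fin r → ℤ) : drv δ (1 : Lau r) = 0 := by
  have h := drv_single δ (0 : Fin r → ℤ) 1
  simp only [Pi.zero_apply, mul_zero, Finset.sum_const_zero, Int.cast_zero, zero_mul,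
    AddMonoidAlgebra.single_zero] at h
  exact h

theorem evD_pow (w : Fin r → ℚ) (hw : ∀ k, 0 < w k) (δ : Fin r → ℤ) (F : Lau r) (n : ℕ) :
    evL w (drv δ (F ^ n)) = n * evL w F ^ (n - 1) * evL w (drv δ F) := by
  induction n with
  | zero => rw [pow_zero, drv_one, evL_zero]; simp
  | succ n ih =>
    rw [pow_succ, drv_mul, evL_add, evL_mul w hw, evL_mul w hw, ih, evL_pow w hw,
      Nat.add_sub_cancel]
    rcases Nat.eq_zero_or_pos n with h | h
    · rw [h]; simp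
    · have h1 : evL w F ^ n = evL w F ^ (n - 1) * evL w F := by
        rw [← pow_succ, Nat.sub_add_cancel h]
      rw [h1]
      push_cast
      ring

end Pool.Agent.Helper9.MT
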