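import Pool.Agent.Helper9.MT.Lau

/-!
Project T3: the main argument.
-/

set_option autoImplicit false

namespace Pool.Agent.Helper9.MT

open Finset Filter Polynomial Pool.Agent.Helper70.SUB Pool.Agent.Helper66.SUB

variable {𝒰 : Ultrafilter ℕ} {H : ℕ → ℝ} {r : ℕ}

/-! ### lifting to Laurent polynomials -/

/-- the sign -/
noncomputable def sg (u : ℤ) : ℚ := if 0 < u then 1 else -1

theorem sg_abs (u : ℤ) (hu : u ≠ 0) : sg u * |(u : ℚ)| = u := by
  unfold sg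
  split_ifs with h
  · rw [abs_of_pos (by exact_mod_cast h), one_mul]
  · have h1 : u < 0 := lt_of_le_of_ne (not_lt.1 h) hu
    rw [abs_of_neg (by exact_mod_cast h1)]
    ring

theorem slow_sg (hH : Tendsto H 𝒰 atTop) (u : ℕ → ℤ) : Slow 𝒰 H (fun j => sg (u j)) := by
  refine Slow.of_le hH 1 (Filter.Eventually.of_forall fun j => ?_)
  unfold sg ht
  split_ifs <;> simp

theorem lift (hH : Tendsto H 𝒰 atTop) {ι : Type} [Fintype ι] (U : ℕ → ι → ℚ)
    (e : Fin r → ι → ℤ) (m : ι → Fin r → ℤ) (c : ℕ → ι → ℚ)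
    (hc : ∀ i, Slow 𝒰 H (fun j => c j i))
    (hU : ∀ j i, U j i = c j i * mono (fun k => mono (U j) (e k)) (m i))
    {n : ℕ} (a : ℕ → ℤ) (c1 : ℕ → Fin n → ℚ) (u1 : ℕ → Fin n → ℤ) (g : Fin n → ι)
    (hc1 : ∀ i, Slow 𝒰 H (fun j => c1 j i))
    (hUg : ∀ j i, U j (g i) = if u1 j i = 0 then 1 else |(u1 j i : ℚ)|)
    (hu0 : ∀ᶠ j in (𝒰 : Filter ℕ), ∀ i, u1 j i ≠ 0)
    (ha : ∀ᶠ j in (𝒰 : Filter ℕ), (a j : ℚ) = ∑ i, c1 j i * (u1 j i : ℚ)) :
    ∃ (P : ℕ → Lau r) (E : ℕ → ℤ), SLF 𝒰 H P ∧ Slow 𝒰 H (fun j => (E j : ℚ)) ∧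
      (∀ j, E j ≠ 0) ∧
      (∀ᶠ j in (𝒰 : Filter ℕ), evL (fun k => mono (U j) (e k)) (P j) = a j) ∧
      ∀ δ : Fin r → ℤ, ∀ᶠ j in (𝒰 : Filter ℕ), ∃ z : ℤ,
        (E j : ℚ) * evL (fun k => mono (U j) (e k)) (drv δ (P j)) = z := by
  classical
  have key : ∀ j, (∀ i, u1 j i ≠ 0) → ∀ i,
      c1 j i * sg (u1 j i) * c j (g i) * mon (fun k => mono (U j) (e k)) (m (g i)) =
        c1 j i * u1 j i := by
    intro j hj i
    have h1 := hU j (g i)
    rw [hUg, if_neg (hj i), mono_mon] at h1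
    rw [mul_assoc _ (c j (g i)), ← h1, mul_assoc, sg_abs _ (hj i)]
  refine ⟨fun j => ∑ i, AddMonoidAlgebra.single (m (g i)) (c1 j i * sg (u1 j i) * c j (g i)),
    fun j => ∏ i, ((c1 j i).den : ℤ), ?_, ?_, ?_, ?_, ?_⟩
  · exact ⟨Fin n, inferInstance, fun i => m (g i), fun j i => c1 j i * sg (u1 j i) * c j (g i),
      fun i => ((hc1 i).mul hH (slow_sg hH _)).mul hH (hc (g i)), fun j => rfl⟩
  · push_cast
    refine Slow.prod _ hH fun i _ => ?_
    intro ε hε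
    filter_upwards [hc1 i ε hε] with j hj
    refine le_trans ?_ hj
    have h1 := ht_int ((c1 j i).den : ℤ)
    rw [Int.cast_natCast] at h1
    rw [h1]
    refine max_le ?_ (one_le_ht _)
    rw [abs_of_nonneg (by positivity)]
    exact_mod_cast den_le_ht (c1 j i)
  · intro j
    exact Finset.prod_ne_zero_iff.2 fun i _ => by exact_mod_cast (Rat.den_pos _).ne'
  · filter_upwards [hu0, ha] with j h1 h2
    rw [evL_sum, h2]
    refine Finset.sum_congr rfl fun i _ => ?_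
    rw [evL_single, key j h1 i]
  · intro δ
    filter_upwards [hu0] with j h1
    refine ⟨∑ i, (∑ k, δ k * m (g i) k) *
      ((c1 j i).num * (∏ i' ∈ univ.erase i, ((c1 j i').den : ℤ)) * u1 j i), ?_⟩
    rw [drv_sum, evL_sum, Finset.mul_sum]
    push_cast
    refine Finset.sum_congr rfl fun i _ => ?_
    rw [drv_single, evL_single, ← Finset.mul_prod_erase univ _ (Finset.mem_univ i)]
    have h2 := key j h1 i
    have h3 : ((c1 j i).num : ℚ) = c1 j i * (c1 j i).den := (Rat.mul_den_eq_num _).symm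
    rw [h3]
    push_cast
    calc ((c1 j i).den : ℚ) * (∏ i' ∈ univ.erase i, ((c1 j i').den : ℚ)) *
          ((∑ k, (δ k : ℚ) * (m (g i) k : ℚ)) * (c1 j i * sg (u1 j i) * c j (g i)) *
            mon (fun k => mono (U j) (e k)) (m (g i)))
        = ((c1 j i).den : ℚ) * (∏ i' ∈ univ.erase i, ((c1 j i').den : ℚ)) *
          ((∑ k, (δ k : ℚ) * (m (g i) k : ℚ)) * (c1 j i * sg (u1 j i) * c j (g i) *
            mon (fun k => mono (U j) (e k)) (m (g i)))) := by ring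
      _ = _ := by rw [h2]; ring

/-! ### the form -/

/-- the form in Laurent polynomials -/
noncomputable def homL (d : ℕ) (f : ℤ[X]) (P Q : Lau r) : Lau r :=
  ∑ i ∈ range (d + 1), ((f.coeff i : ℤ) : ℚ) • (P ^ i * Q ^ (d - i))

theorem drv_smul (δ : Fin r → ℤ) (c : ℚ) (F : Lau r) : drv δ (c • F) = c • drv δ F := by
  apply AddMonoidAlgebra.ext
  ext m'
  rw [coeff_drv, AddMonoidAlgebra.coeff_smul, AddMonoidAlgebra.coeff_smul, Finsupp.smul_apply,
    Finsupp.smul_apply, coeff_drv, smul_eq_mul, smul_eq_mul]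
  ring

theorem evL_homL (w : Fin r → ℚ) (hw : ∀ k, 0 < w k) (d : ℕ) (f : ℤ[X]) (P Q : Lau r)
    (p q : ℤ) (hP : evL w P = p) (hQ : evL w Q = q) : evL w (homL d f P Q) = hom d f p q := by
  unfold homL hom
  rw [evL_sum]
  push_cast
  refine Finset.sum_congr rfl fun i _ => ?_
  rw [evL_smul, evL_mul w hw, evL_pow w hw, evL_pow w hw, hP, hQ]
  ring

theorem evD_homL (w : Fin r → ℚ) (hw : ∀ k, 0 < w k) (δ : Fin r → ℤ) (d : ℕ) (f : ℤ[X])
    (P Q : Lau r) (p q : ℤ) (hP : evL w P = p) (hQ : evL w Q = q) :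
    evL w (drv δ (homL d f P Q)) =
      homX d f p q * evL w (drv δ P) + homY d f p q * evL w (drv δ Q) := by
  unfold homL homX homY
  rw [drv_sum, evL_sum]
  push_cast
  rw [Finset.sum_mul, Finset.sum_mul, ← Finset.sum_add_distrib]
  refine Finset.sum_congr rfl fun i _ => ?_
  rw [drv_smul, evL_smul, drv_mul, evL_add, evL_mul w hw, evL_mul w hw, evD_pow w hw,
    evD_pow w hw, evL_pow w hw, evL_pow w hw, hP, hQ]
  ring

theorem SLF.homL (hH : Tendsto H 𝒰 atTop) (d : ℕ) {f : ℕ → ℤ[X]} {P Q : ℕ → Lau r}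
    (hf : ∀ i, Slow 𝒰 H (fun j => ((f j).coeff i : ℚ))) (hP : SLF 𝒰 H P) (hQ : SLF 𝒰 H Q) :
    SLF 𝒰 H (fun j => homL d (f j) (P j) (Q j)) := by
  unfold MT.homL
  exact SLF.sum hH _ fun i _ => SLF.smul hH (hf i) ((hP.pow hH i).mul hH (hQ.pow hH (d - i)))

theorem qs_abs {S : Finset ℕ} {u : ℤ} (hu : SU S u) : QS S |(u : ℚ)| := by
  refine ⟨|u|, 1, ⟨abs_ne_zero.2 hu.1, fun q hq h => hu.2 q hq ((dvd_abs _ _).1 h)⟩, su_one, ?_⟩
  push_cast
  ring

theorem ht_coprime (p q : ℤ) (hq : q ≠ 0) (h : IsCoprime p q) :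
    ht ((p : ℚ) / q) = max |(p : ℝ)| |(q : ℝ)| := by
  obtain ⟨c, hc1, hc2⟩ := Rat.num_den_mk (q := (p : ℚ) / q) hq (by rw [Rat.divInt_eq_div])
  have hcu : IsUnit c := by
    refine h.isUnit_of_dvd' ⟨_, hc1⟩ ⟨_, hc2⟩
  have hc3 : |(c : ℝ)| = 1 := by
    have := Int.isUnit_iff.1 hcu
    rcases this with h | h <;> rw [h] <;> simp
  have e1 : |(p : ℝ)| = |(c : ℝ)| * |((((p : ℚ) / q).num : ℤ) : ℝ)| := by
    rw [← abs_mul]
    congr 1
    exact_mod_cast hc1
  have e2 : |(q : ℝ)| = |(c : ℝ)| * ((((p : ℚ) / q).den : ℕ) : ℝ) := by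
    rw [← abs_of_nonneg (by positivity : (0 : ℝ) ≤ ((((p : ℚ) / q).den : ℕ) : ℝ)), ← abs_mul]
    congr 1
    exact_mod_cast hc2
  rw [e1, e2, hc3, one_mul, one_mul]
  rfl

/-- the main argument -/
theorem main (hAV : ST_AV) (hSUBT : ST_SUBT) (hLAU1 : ST_LAU1) (hRESB : ST_RESB)
    (hNUMH : ST_NUMH) (h𝒰 : (𝒰 : Filter ℕ) ≤ atTop) (hH : Tendsto H 𝒰 atTop)
    (d : ℕ) (hd : 5 ≤ d) (S : Finset ℕ) (hS : ∀ p ∈ S, p.Prime)
    (f : ℕ → ℤ[X]) (k p q N : ℕ → ℤ)
    (hfd : ∀ᶠ j in (𝒰 : Filter ℕ), (f j).natDegree = d)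
    (hsep : ∀ᶠ j in (𝒰 : Filter ℕ), ((f j).map (Int.castRingHom ℚ)).Separable)
    (hfs : ∀ i, Slow 𝒰 H (fun j => ((f j).coeff i : ℚ)))
    (hks : Slow 𝒰 H (fun j => (k j : ℚ)))
    (hk0 : ∀ᶠ j in (𝒰 : Filter ℕ), k j ≠ 0) (hN0 : ∀ᶠ j in (𝒰 : Filter ℕ), N j ≠ 0)
    (hp0 : ∀ᶠ j in (𝒰 : Filter ℕ), p j ≠ 0) (hq0 : ∀ᶠ j in (𝒰 : Filter ℕ), q j ≠ 0)
    (hcop : ∀ᶠ j in (𝒰 : Filter ℕ), IsCoprime (p j) (q j))
    (hHj : ∀ᶠ j in (𝒰 : Filter ℕ), H j = max |(p j : ℝ)| |(q j : ℝ)|)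
    (heq : ∀ᶠ j in (𝒰 : Filter ℕ), hom d (f j) (p j) (q j) = k j * N j ^ 2)
    (t : ℕ) (hRp : RepS 𝒰 H S p t) (hRq : RepS 𝒰 H S q t) (hRN : RepS 𝒰 H S N t) : False := by
  classical
  -- coefficients
  have hfa : ∀ ε : ℝ, 0 < ε → ∀ᶠ j in (𝒰 : Filter ℕ), ∀ i, |((f j).coeff i : ℝ)| ≤ H j ^ ε := by
    intro ε hε
    have h1 : ∀ᶠ j in (𝒰 : Filter ℕ), ∀ i ∈ range (d + 1),
        ht ((f j).coeff i : ℚ) ≤ H j ^ ε :=
      (Filter.eventually_all_finset _).2 fun i _ => hfs i ε hε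
    filter_upwards [h1, hfd, ev_pos hH] with j a1 a2 a3 i
    by_cases hi : i ≤ d
    · have h2 := a1 i (Finset.mem_range.2 (by omega))
      rw [ht_int] at h2
      exact (le_max_left _ _).trans h2
    · rw [Polynomial.coeff_eq_zero_of_natDegree_lt (by omega), Int.cast_zero, abs_zero]
      exact Real.rpow_nonneg (by linarith) _
  have hpH : ∀ᶠ j in (𝒰 : Filter ℕ), |(p j : ℝ)| ≤ H j ^ (1 : ℝ) := by
    filter_upwards [hHj] with j hj
    rw [Real.rpow_one, hj]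
    exact le_max_left _ _
  have hqH : ∀ᶠ j in (𝒰 : Filter ℕ), |(q j : ℝ)| ≤ H j ^ (1 : ℝ) := by
    filter_upwards [hHj] with j hj
    rw [Real.rpow_one, hj]
    exact le_max_right _ _
  have hNH : ∀ᶠ j in (𝒰 : Filter ℕ), |(N j : ℝ)| ≤ H j ^ ((d + 2 : ℕ) : ℝ) := by
    filter_upwards [heq, hpH, hqH, hfa 1 one_pos, hN0, hk0, ev_pos hH,
      ev_rpow hH 1 one_pos ((d + 1 : ℕ) : ℝ)] with j a1 a2 a3 a4 a5 a6 a7 a8
    rw [Real.rpow_one] at a2 a3 a8
    have hH0 : 0 < H j := by linarith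
    have h1 : |(hom d (f j) (p j) (q j) : ℝ)| ≤ (d + 1 : ℕ) * (H j * H j ^ d) := by
      unfold hom
      push_cast
      refine (Finset.abs_sum_le_sum_abs _ _).trans ?_
      have h2 : ∀ i ∈ range (d + 1),
          |((f j).coeff i : ℝ) * (p j : ℝ) ^ i * (q j : ℝ) ^ (d - i)| ≤ H j * H j ^ d := by
        intro i hi
        rw [Finset.mem_range] at hi
        rw [abs_mul, abs_mul, abs_pow, abs_pow, mul_assoc]
        have h3 := a4 i
        rw [Real.rpow_one] at h3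
        refine mul_le_mul h3 ?_ (by positivity) hH0.le
        calc |(p j : ℝ)| ^ i * |(q j : ℝ)| ^ (d - i) ≤ H j ^ i * H j ^ (d - i) :=
              mul_le_mul (pow_le_pow_left₀ (abs_nonneg _) a2 _)
                (pow_le_pow_left₀ (abs_nonneg _) a3 _) (by positivity) (by positivity)
          _ = H j ^ d := by rw [← pow_add]; congr 1; omega
      calc ∑ i ∈ range (d + 1), |((f j).coeff i : ℝ) * (p j : ℝ) ^ i * (q j : ℝ) ^ (d - i)|
          ≤ ∑ _i ∈ range (d + 1), H j * H j ^ d := Finset.sum_le_sum h2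
        _ = _ := by simp
    have h2 : |(N j : ℝ)| ≤ |(hom d (f j) (p j) (q j) : ℝ)| := by
      rw [a1]
      have h3 : (1 : ℝ) ≤ |(N j : ℝ)| := by exact_mod_cast Int.one_le_abs a5
      have h4 : (1 : ℝ) ≤ |(k j : ℝ)| := by exact_mod_cast Int.one_le_abs a6
      push_cast
      rw [abs_mul, abs_pow]
      nlinarith [mul_nonneg (sub_nonneg.2 h4) (sub_nonneg.2 h3),
        mul_nonneg (abs_nonneg (N j : ℝ)) (sub_nonneg.2 h3),
        mul_nonneg (mul_nonneg (abs_nonneg (N j : ℝ)) (abs_nonneg (N j : ℝ))) (sub_nonneg.2 h4)]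
    calc |(N j : ℝ)| ≤ (d + 1 : ℕ) * (H j * H j ^ d) := h2.trans h1
      _ ≤ H j * (H j * H j ^ d) := mul_le_mul_of_nonneg_right a8 (by positivity)
      _ = H j ^ ((d + 2 : ℕ) : ℝ) := by rw [Real.rpow_natCast]; ring
  -- removal of cancelling terms
  obtain ⟨n1, c1, u1, A1, hc1, hu1, hs1, hA1, hb1⟩ :=
    cleans hAV hSUBT h𝒰 hH S hS p hp0 1 zero_le_one hpH t hRp
  obtain ⟨n2, c2, u2, A2, hc2, hu2, hs2, hA2, hb2⟩ :=
    cleans hAV hSUBT h𝒰 hH S hS q hq0 1 zero_le_one hqH t hRq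
  obtain ⟨n3, c3, u3, A3, hc3, hu3, hs3, hA3, hb3⟩ :=
    cleans hAV hSUBT h𝒰 hH S hS N hN0 _ (Nat.cast_nonneg _) hNH t hRN
  obtain ⟨u0, hu0def⟩ : ∃ u0 : ℕ → (Fin n1 ⊕ (Fin n2 ⊕ Fin n3)) → ℤ,
    ∀ j, u0 j = Sum.elim (u1 j) (Sum.elim (u2 j) (u3 j)) := ⟨_, fun _ => rfl⟩
  obtain ⟨U, hUdef⟩ : ∃ U : ℕ → (Fin n1 ⊕ (Fin n2 ⊕ Fin n3)) → ℚ,
    ∀ j i, U j i = if u0 j i = 0 then 1 else |(u0 j i : ℚ)| := ⟨_, fun _ _ => rfl⟩
  have hUpos : ∀ j i, 0 < U j i := by
    intro j i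
    rw [hUdef]
    split_ifs with h
    · exact one_pos
    · exact abs_pos.2 (by exact_mod_cast h)
  have hu0SU : ∀ᶠ j in (𝒰 : Filter ℕ), ∀ i, SU S (u0 j i) := by
    filter_upwards [Filter.eventually_all.2 hu1, Filter.eventually_all.2 hu2,
      Filter.eventually_all.2 hu3] with j a1 a2 a3 i
    rw [hu0def]
    rcases i with i | i | i
    · exact a1 i
    · exact a2 i
    · exact a3 i
  obtain ⟨A, hA⟩ : ∃ A : ℝ, A = A1 + A2 + A3 := ⟨_, rfl⟩
  have hA0 : 0 ≤ A := by rw [hA]; positivity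
  have hUht : ∀ᶠ j in (𝒰 : Filter ℕ), ∀ i, ht (U j i) ≤ H j ^ A := by
    filter_upwards [Filter.eventually_all.2 hb1, Filter.eventually_all.2 hb2,
      Filter.eventually_all.2 hb3, hu0SU, ev_pos hH] with j a1 a2 a3 a4 a5 i
    rw [hUdef, if_neg (a4 i).1]
    have h1 : |(u0 j i : ℚ)| = ((|u0 j i| : ℤ) : ℚ) := by push_cast; rfl
    rw [h1, ht_int]
    refine max_le ?_ (Real.one_le_rpow a5 hA0)
    have h2 : |((|u0 j i| : ℤ) : ℝ)| = |(u0 j i : ℝ)| := by push_cast; rw [abs_abs]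
    rw [h2, hu0def]
    rcases i with i | i | i
    · exact (a1 i).trans (Real.rpow_le_rpow_of_exponent_le a5 (by rw [hA]; linarith))
    · exact (a2 i).trans (Real.rpow_le_rpow_of_exponent_le a5 (by rw [hA]; linarith))
    · exact (a3 i).trans (Real.rpow_le_rpow_of_exponent_le a5 (by rw [hA]; linarith))
  obtain ⟨r, e, m, c, hcs, hcp, hUc, hns⟩ := monos (𝒰 := 𝒰) (H := H) hH U hUpos
  obtain ⟨w, hw⟩ : ∃ w : ℕ → Fin r → ℚ, w = fun j k => mono (U j) (e k) := ⟨_, rfl⟩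
  obtain ⟨K, hK⟩ : ∃ K : ℕ, ∀ k, ∑ i, (e k i).natAbs ≤ K :=
    ⟨∑ k, ∑ i, (e k i).natAbs, fun k =>
      Finset.single_le_sum (f := fun k => ∑ i, (e k i).natAbs) (fun _ _ => Nat.zero_le _)
        (Finset.mem_univ k)⟩
  have hsys : Sys 𝒰 H S r w (A * K) := by
    refine ⟨?_, ?_, mul_nonneg hA0 (Nat.cast_nonneg _), ?_, ?_⟩
    · intro j k
      rw [hw]
      exact mono_pos _ (hUpos j) _
    · intro k
      filter_upwards [hu0SU] with j hj
      rw [hw]
      refine QS.mono _ _ fun i => ?_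
      rw [hUdef, if_neg (hj i).1]
      exact qs_abs (hj i)
    · intro k
      filter_upwards [hUht, ev_pos hH] with j a1 a2
      have hH0 : 0 < H j := by linarith
      have hHA : 1 ≤ H j ^ A := Real.one_le_rpow a2 hA0
      rw [hw]
      refine (ht_mono_le (U j) (e k) (H j ^ A) a1).trans ?_
      rw [Real.rpow_mul hH0.le, Real.rpow_natCast]
      exact pow_le_pow_right₀ hHA (hK k)
    · intro l hl
      rw [hw]
      exact hns l hl
  -- lifting
  obtain ⟨P, E1, hP, hE1s, hE10, hPe, hPd⟩ := lift hH U e m c hcs hUc p c1 u1 (fun i => Sum.inl i)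
    hc1 (fun j i => by rw [hUdef, hu0def]; rfl)
    (by filter_upwards [Filter.eventually_all.2 hu1] with j hj i using (hj i).1) hs1
  obtain ⟨Q, E2, hQ, hE2s, hE20, hQe, hQd⟩ := lift hH U e m c hcs hUc q c2 u2
    (fun i => Sum.inr (Sum.inl i)) hc2 (fun j i => by rw [hUdef, hu0def]; rfl)
    (by filter_upwards [Filter.eventually_all.2 hu2] with j hj i using (hj i).1) hs2
  obtain ⟨R, E3, hR, hE3s, hE30, hRe, hRd⟩ := lift hH U e m c hcs hUc N c3 u3
    (fun i => Sum.inr (Sum.inr i)) hc3 (fun j i => by rw [hUdef, hu0def]; rfl)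
    (by filter_upwards [Filter.eventually_all.2 hu3] with j hj i using (hj i).1) hs3
  have hwj : ∀ j, (fun k => mono (U j) (e k)) = w j := fun j => by rw [hw]
  simp only [hwj] at hPe hQe hRe hPd hQd hRd
  have hwp : ∀ j k, 0 < w j k := hsys.pos
  -- the identity
  have hZ : ∀ᶠ j in (𝒰 : Filter ℕ), homL d (f j) (P j) (Q j) - (k j : ℚ) • (R j) ^ 2 = 0 := by
    have h1 : SLF 𝒰 H (fun j => homL d (f j) (P j) (Q j) - (k j : ℚ) • (R j) ^ 2) :=
      (SLF.homL hH d hfs hP hQ).sub hH (SLF.smul hH hks (hR.pow hH 2))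
    filter_upwards [sinj hAV hSUBT h𝒰 hH S hS hsys h1, heq, hPe, hQe, hRe] with j a1 a2 a3 a4 a5
    apply a1
    rw [sub_eq_add_neg, ← neg_one_smul ℚ ((k j : ℚ) • (R j) ^ 2), evL_add, evL_smul, evL_smul,
      evL_pow _ (hwp j), a5, evL_homL _ (hwp j) _ _ _ _ _ _ a3 a4, a2]
    push_cast
    ring
  have hder : ∀ δ : Fin r → ℤ, ∀ᶠ j in (𝒰 : Filter ℕ),
      (homX d (f j) (p j) (q j) : ℚ) * evL (w j) (drv δ (P j)) +
        homY d (f j) (p j) (q j) * evL (w j) (drv δ (Q j)) =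
      2 * k j * N j * evL (w j) (drv δ (R j)) := by
    intro δ
    filter_upwards [hZ, hPe, hQe, hRe] with j a1 a3 a4 a5
    rw [← evD_homL _ (hwp j) δ d (f j) (P j) (Q j) _ _ a3 a4, sub_eq_zero.1 a1, drv_smul,
      evL_smul, evD_pow _ (hwp j), a5]
    push_cast
    ring
  -- the numerical heart
  obtain ⟨κ, hκ⟩ := hNUMH d S hd hS
  by_cases hWc : ∃ k : Fin r, ∀ᶠ j in (𝒰 : Filter ℕ),
      Q j * drv (Pi.single k 1) (P j) - P j * drv (Pi.single k 1) (Q j) ≠ 0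
  · obtain ⟨k0, hk1⟩ := hWc
    obtain ⟨δ, hδ⟩ : ∃ δ : Fin r → ℤ, δ = Pi.single k0 1 := ⟨_, rfl⟩
    rw [← hδ] at hk1
    obtain ⟨ε, hεd⟩ : ∃ ε : ℝ, ε = 1 / (2 * (κ + 1)) := ⟨_, rfl⟩
    have hε : 0 < ε := by rw [hεd]; positivity
    have hWS : SLF 𝒰 H (fun j => Q j * drv δ (P j) - P j * drv δ (Q j)) :=
      (hQ.mul hH (hP.drv hH δ)).sub hH (hP.mul hH (hQ.drv hH δ))
    have hEs : Slow 𝒰 H (fun j => ((E1 j * E2 j * E3 j : ℤ) : ℚ)) := by
      push_cast
      exact (hE1s.mul hH hE2s).mul hH hE3s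
    have hEv : ∀ᶠ j in (𝒰 : Filter ℕ), ∀ v ∈ plc S,
        av v ((E1 j * E2 j * E3 j : ℤ) : ℚ) ≤ H j ^ (ε / 2) := by
      filter_upwards [hEs (ε / 2) (by positivity)] with j hj v hv
      exact (av_le_ht hAV S hS v hv _).trans hj
    have hdP : ∀ᶠ j in (𝒰 : Filter ℕ), ∀ v ∈ plc S,
        av v (evL (w j) (drv δ (P j))) ≤ H j ^ (ε / 2) * av v (evL (w j) (P j)) :=
      (Filter.eventually_all_finset _).2 fun v hv =>
        sdb hAV hSUBT h𝒰 hH S hS hsys hP δ v hv (ε / 2) (by positivity)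
    have hdQ : ∀ᶠ j in (𝒰 : Filter ℕ), ∀ v ∈ plc S,
        av v (evL (w j) (drv δ (Q j))) ≤ H j ^ (ε / 2) * av v (evL (w j) (Q j)) :=
      (Filter.eventually_all_finset _).2 fun v hv =>
        sdb hAV hSUBT h𝒰 hH S hS hsys hQ δ v hv (ε / 2) (by positivity)
    have hdR : ∀ᶠ j in (𝒰 : Filter ℕ), ∀ v ∈ plc S,
        av v (evL (w j) (drv δ (R j))) ≤ H j ^ (ε / 2) * av v (evL (w j) (R j)) :=
      (Filter.eventually_all_finset _).2 fun v hv =>
        sdb hAV hSUBT h𝒰 hH S hS hsys hR δ v hv (ε / 2) (by positivity)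
    have hRES : ∀ᶠ j in (𝒰 : Filter ℕ),
        ((2 * d).factorial : ℝ) * (d * H j ^ (ε / (4 * d))) ^ (2 * d) ≤ H j ^ ε := by
      filter_upwards [ev_pos hH, ev_rpow hH (ε / 2) (by positivity)
        (((2 * d).factorial : ℝ) * (d : ℝ) ^ (2 * d))] with j a1 a2
      have hH0 : 0 < H j := by linarith
      have hd0 : (0 : ℝ) < d := by exact_mod_cast (by omega : 0 < d)
      rw [mul_pow, ← mul_assoc]
      have h1 : (H j ^ (ε / (4 * d))) ^ (2 * d) = H j ^ (ε / 2) := by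
        rw [← Real.rpow_natCast, ← Real.rpow_mul hH0.le]
        congr 1
        push_cast
        field_simp
        ring
      rw [h1]
      calc ((2 * d).factorial : ℝ) * (d : ℝ) ^ (2 * d) * H j ^ (ε / 2)
          ≤ H j ^ (ε / 2) * H j ^ (ε / 2) :=
            mul_le_mul_of_nonneg_right a2 (Real.rpow_nonneg hH0.le _)
        _ = H j ^ ε := by rw [← Real.rpow_add hH0]; congr 1; ring
    have hfin : ∀ᶠ j in (𝒰 : Filter ℕ), H j ^ (d - 4) ≤ κ * (H j ^ ε) ^ κ := by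
      have hd4 : (0 : ℝ) < 4 * d := by
        have : (0 : ℝ) < d := by exact_mod_cast (by omega : 0 < d)
        linarith
      filter_upwards [hfd, hsep, hk0, hN0, hq0, hcop, hHj, heq, hfa (ε / (4 * d)) (by positivity),
        hfa ε hε, hks ε hε, hRES, ev_pos hH, (hder δ).and (hPd δ), (hQd δ).and (hRd δ),
        hk1.and (sinj hAV hSUBT h𝒰 hH S hS hsys hWS), hPe.and (hQe.and hRe),
        hEv.and (hdP.and (hdQ.and hdR))]
        with j b1 b2 b3 b4 b5 b6 b7 b8 b9 b10 b11 b12 b13 b14 b15 b16 b17 b18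
      have hH0 : 0 < H j := by linarith
      obtain ⟨g1, zp, hzp⟩ := b14
      obtain ⟨⟨zq, hzq⟩, ⟨zn, hzn⟩⟩ := b15
      obtain ⟨g2, g3⟩ := b16
      obtain ⟨g4, g5, g6⟩ := b17
      obtain ⟨g7, g8, g9, g10⟩ := b18
      obtain ⟨U', V', R', hR0, hU'd, hV'd, hres, hRb, hUb, hVb⟩ := hRESB d (f j)
        (H j ^ (ε / (4 * d))) (by omega) b1 b2 (Real.one_le_rpow b13 (by positivity)) b9
      -- integers
      have hE0 : ((E1 j * E2 j * E3 j : ℤ) : ℚ) ≠ 0 := by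
        exact_mod_cast mul_ne_zero (mul_ne_zero (hE10 j) (hE20 j)) (hE30 j)
      have ip : ((E1 j * E2 j * E3 j : ℤ) : ℚ) * evL (w j) (drv δ (P j)) =
          ((E2 j * E3 j * zp : ℤ) : ℚ) := by
        push_cast
        rw [← hzp]
        ring
      have iq : ((E1 j * E2 j * E3 j : ℤ) : ℚ) * evL (w j) (drv δ (Q j)) =
          ((E1 j * E3 j * zq : ℤ) : ℚ) := by
        push_cast
        rw [← hzq]
        ring
      have inn : ((E1 j * E2 j * E3 j : ℤ) : ℚ) * evL (w j) (drv δ (R j)) =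
          ((E1 j * E2 j * zn : ℤ) : ℚ) := by
        push_cast
        rw [← hzn]
        ring
      have hAV' := hAV
      obtain ⟨av0, avz, hAV'⟩ := hAV'
      obtain ⟨apos, amul, -⟩ := hAV' S hS
      have bnd : ∀ (x y : ℚ) (z : ℤ), ((E1 j * E2 j * E3 j : ℤ) : ℚ) * x = (z : ℚ) →
          ∀ v ∈ plc S, av v x ≤ H j ^ (ε / 2) * av v y → av v (z : ℚ) ≤ H j ^ ε * av v y := by
        intro x y z hz v hv hxy
        rw [← hz, amul v hv]
        calc av v ((E1 j * E2 j * E3 j : ℤ) : ℚ) * av v x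
            ≤ H j ^ (ε / 2) * (H j ^ (ε / 2) * av v y) :=
              mul_le_mul (g7 v hv) hxy (av0 _ _) (Real.rpow_nonneg hH0.le _)
          _ = H j ^ ε * av v y := by
              rw [← mul_assoc, ← Real.rpow_add hH0]
              congr 2
              ring
      refine hκ (f j) U' V' R' (k j) (p j) (q j) (N j) (E2 j * E3 j * zp) (E1 j * E3 j * zq)
        (E1 j * E2 j * zn) (H j ^ ε) (H j) b1 hU'd hV'd hres hR0 b3 b5 b4 b6
        (Real.one_le_rpow b13 hε.le) b10 (fun i => (hUb i).trans b12)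
        (fun i => (hVb i).trans b12) (hRb.trans b12) ?_ b7 b8 ?_ ?_ ?_ ?_ ?_
      · have := b11
        rw [ht_int] at this
        exact (le_max_left _ _).trans this
      · have h1 : ((homX d (f j) (p j) (q j) * (E2 j * E3 j * zp) +
            homY d (f j) (p j) (q j) * (E1 j * E3 j * zq) : ℤ) : ℚ) =
            ((2 * k j * N j * (E1 j * E2 j * zn) : ℤ) : ℚ) := by
          have e1 : ((homX d (f j) (p j) (q j) * (E2 j * E3 j * zp) +
            homY d (f j) (p j) (q j) * (E1 j * E3 j * zq) : ℤ) : ℚ) =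
            homX d (f j) (p j) (q j) * ((E2 j * E3 j * zp : ℤ) : ℚ) +
            homY d (f j) (p j) (q j) * ((E1 j * E3 j * zq : ℤ) : ℚ) := by push_cast; ring
          have e2 : ((2 * k j * N j * (E1 j * E2 j * zn) : ℤ) : ℚ) =
            2 * k j * N j * ((E1 j * E2 j * zn : ℤ) : ℚ) := by push_cast; ring
          rw [e1, e2, ← ip, ← iq, ← inn]
          calc _ = ((E1 j * E2 j * E3 j : ℤ) : ℚ) *
              ((homX d (f j) (p j) (q j) : ℚ) * evL (w j) (drv δ (P j)) +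
                homY d (f j) (p j) (q j) * evL (w j) (drv δ (Q j))) := by ring
            _ = _ := by rw [g1]; ring
        exact_mod_cast h1
      · intro h0
        apply g2
        apply g3
        have h1 : ((q j * (E2 j * E3 j * zp) - p j * (E1 j * E3 j * zq) : ℤ) : ℚ) = 0 := by
          exact_mod_cast h0
        have e1 : ((q j * (E2 j * E3 j * zp) - p j * (E1 j * E3 j * zq) : ℤ) : ℚ) =
            q j * ((E2 j * E3 j * zp : ℤ) : ℚ) - p j * ((E1 j * E3 j * zq : ℤ) : ℚ) := by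
          push_cast; ring
        rw [e1, ← ip, ← iq] at h1
        have h2 : ((E1 j * E2 j * E3 j : ℤ) : ℚ) *
            (q j * evL (w j) (drv δ (P j)) - p j * evL (w j) (drv δ (Q j))) = 0 := by
          rw [← h1]; ring
        have h3 := (mul_eq_zero.1 h2).resolve_left hE0
        rw [sub_eq_add_neg, ← neg_one_smul ℚ (P j * drv δ (Q j)), evL_add, evL_smul,
          evL_mul _ (hwp j), evL_mul _ (hwp j), g4, g5]
        linarith
      · intro v hv
        have h1 := g8 v hv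
        rw [g4] at h1
        exact bnd _ _ _ ip v hv h1
      · intro v hv
        have h1 := g9 v hv
        rw [g5] at h1
        exact bnd _ _ _ iq v hv h1
      · intro v hv
        have h1 := g10 v hv
        rw [g6] at h1
        exact bnd _ _ _ inn v hv h1
    obtain ⟨j, hj1, hj2, hj3⟩ := (hfin.and ((ev_pos hH).and
      (ev_rpow hH (1 / 2) (by norm_num) (κ + 1 : ℝ)))).exists
    have hH0 : 0 < H j := by linarith
    have h1 : (H j ^ ε) ^ κ ≤ H j ^ (1 / 2 : ℝ) := by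
      rw [← Real.rpow_natCast, ← Real.rpow_mul hH0.le]
      refine Real.rpow_le_rpow_of_exponent_le hj2 ?_
      rw [hεd, one_div, inv_mul_eq_div, div_le_iff₀ (by positivity)]
      linarith
    have h2 : H j ≤ H j ^ (d - 4) := le_self_pow₀ hj2 (by omega)
    have h3 : H j = H j ^ (1 / 2 : ℝ) * H j ^ (1 / 2 : ℝ) := by
      rw [← Real.rpow_add hH0]; norm_num
    have h4 : 0 < H j ^ (1 / 2 : ℝ) := Real.rpow_pos_of_pos hH0 _
    have h5 : H j ≤ κ * H j ^ (1 / 2 : ℝ) :=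
      (h2.trans hj1).trans (mul_le_mul_of_nonneg_left h1 (Nat.cast_nonneg _))
    have h6 : H j ^ (1 / 2 : ℝ) ≤ κ := by
      have h7 : H j ^ (1 / 2 : ℝ) * H j ^ (1 / 2 : ℝ) ≤ κ * H j ^ (1 / 2 : ℝ) := by
        calc H j ^ (1 / 2 : ℝ) * H j ^ (1 / 2 : ℝ) = H j := h3.symm
          _ ≤ _ := h5
      exact le_of_mul_le_mul_right h7 h4
    linarith
  -- proportional logarithmic derivatives
  · push Not at hWc
    have hW0 : ∀ᶠ j in (𝒰 : Filter ℕ), ∀ k : Fin r,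
        Q j * drv (Pi.single k 1) (P j) - P j * drv (Pi.single k 1) (Q j) = 0 := by
      refine Filter.eventually_all.2 fun k => ?_
      exact hWc k
    have hlin : ∀ (F : Lau r) (δ : Fin r → ℤ),
        drv δ F = ∑ k, ((δ k : ℤ) : ℚ) • drv (Pi.single k 1) F := by
      intro F δ
      apply AddMonoidAlgebra.ext
      ext m'
      rw [coeff_drv, AddMonoidAlgebra.coeff_sum, Finsupp.finsetSum_apply]
      simp only [AddMonoidAlgebra.coeff_smul, Finsupp.smul_apply, coeff_drv, smul_eq_mul]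
      push_cast
      rw [Finset.sum_mul]
      refine Finset.sum_congr rfl fun k _ => ?_
      rw [Finset.sum_eq_single k]
      · simp
        ring
      · intro b _ hb
        simp [Pi.single_eq_of_ne hb]
      · intro h
        exact absurd (Finset.mem_univ _) h
    have hprop : ∀ᶠ j in (𝒰 : Filter ℕ), ∃ c : ℚ, P j = c • Q j := by
      filter_upwards [hW0, hQe, hq0] with j a1 a2 a3
      refine hLAU1 r (P j) (Q j) ?_ ?_
      · intro h
        rw [h, evL_zero] at a2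
        exact a3 (by exact_mod_cast a2.symm)
      · intro δ
        rw [hlin (Q j) δ, hlin (P j) δ, Finset.mul_sum, Finset.mul_sum]
        refine Finset.sum_congr rfl fun k _ => ?_
        rw [mul_smul_comm, mul_smul_comm]
        congr 1
        exact (sub_eq_zero.1 (a1 k)).symm
    obtain ⟨T, hT⟩ := hQ.supp
    have hPc : ∀ᶠ j in (𝒰 : Filter ℕ), ∀ m ∈ T,
        ht ((P j).coeff m * ((Q j).coeff m)⁻¹) ≤ H j ^ (1 / 2 : ℝ) :=
      (Filter.eventually_all_finset T).2 fun m _ =>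
        ((hP.coeff hH m).mul hH (hQ.coeff hH m).inv) _ (by norm_num)
    obtain ⟨j, hj1, hj2, hj3, hj4, hj5, hj6, hj7, hj8, hj9⟩ := (hprop.and (hPc.and (hPe.and
      (hQe.and (hq0.and (hcop.and (hHj.and ((ev_pos hH).and
        (hH.eventually_ge_atTop 2))))))))).exists
    obtain ⟨c', hc'⟩ := hj1
    have hH0 : 0 < H j := by linarith
    have hQne : Q j ≠ 0 := by
      intro h
      rw [h, evL_zero] at hj4
      exact hj5 (by exact_mod_cast hj4.symm)
    obtain ⟨m0, hm0⟩ : ((Q j).coeff).support.Nonempty := by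
      rw [Finset.nonempty_iff_ne_empty]
      intro h
      apply hQne
      apply AddMonoidAlgebra.ext
      rw [Finsupp.support_eq_empty.1 h]
      rfl
    have h1 := hj2 m0 (hT j hm0)
    have h2 : (Q j).coeff m0 ≠ 0 := Finsupp.mem_support_iff.1 hm0
    have h3 : (P j).coeff m0 * ((Q j).coeff m0)⁻¹ = c' := by
      rw [hc', AddMonoidAlgebra.coeff_smul, Finsupp.smul_apply, smul_eq_mul, mul_assoc,
        mul_inv_cancel₀ h2, mul_one]
    have h4 : (p j : ℚ) = c' * q j := by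
      rw [← hj3, hc', evL_smul, hj4]
    have hq0' : (q j : ℚ) ≠ 0 := by exact_mod_cast hj5
    have h5 : c' = (p j : ℚ) / q j := by rw [h4]; field_simp
    rw [h3, h5] at h1
    have h6 : H j ≤ ht ((p j : ℚ) / q j) := by
      rw [hj7, ht_coprime _ _ hj5 hj6]
    have h7 : H j ^ (1 / 2 : ℝ) < H j := by
      calc H j ^ (1 / 2 : ℝ) < H j ^ (1 : ℝ) :=
            Real.rpow_lt_rpow_of_exponent_lt (by linarith) (by norm_num)
        _ = H j := Real.rpow_one _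
    linarith

end Pool.Agent.Helper9.MT
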