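import Pool.Agent.Helper9.MT.Ht

/-!
Project T3 (MP_2a8cc2_nt): rational points with sparse coordinates. Row statements.
-/

set_option autoImplicit false

namespace Pool.Agent.Helper9.MT

open Finset Filter Polynomial Pool.Agent.Helper70.SUB

/-- sums of at most `t` products of an integer of absolute value at most `B` and an `S`-unit -/
def Sparse (S : Finset ℕ) (t : ℕ) (B : ℝ) (n : ℤ) : Prop :=
  ∃ c u : Fin t → ℤ, (∀ i, |(c i : ℝ)| ≤ B) ∧ (∀ i, SU S (u i)) ∧ n = ∑ i, c i * u i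

/-- value of the form of degree `d` attached to `f` -/
noncomputable def hom (d : ℕ) (f : ℤ[X]) (p q : ℤ) : ℤ :=
  ∑ i ∈ range (d + 1), f.coeff i * p ^ i * q ^ (d - i)

/-- its derivative with respect to the first variable -/
noncomputable def homX (d : ℕ) (f : ℤ[X]) (p q : ℤ) : ℤ :=
  ∑ i ∈ range (d + 1), f.coeff i * i * p ^ (i - 1) * q ^ (d - i)

/-- its derivative with respect to the second variable -/
noncomputable def homY (d : ℕ) (f : ℤ[X]) (p q : ℤ) : ℤ :=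
  ∑ i ∈ range (d + 1), f.coeff i * (d - i : ℕ) * p ^ i * q ^ (d - i - 1)

/-- (RESB) the resultant of `f` and `f'`, with bounded cofactors -/
def ST_RESB : Prop := ∀ (d : ℕ) (f : ℤ[X]) (B : ℝ), 2 ≤ d → f.natDegree = d →
  (f.map (Int.castRingHom ℚ)).Separable → 1 ≤ B → (∀ i, |(f.coeff i : ℝ)| ≤ B) →
  ∃ (U V : ℤ[X]) (R : ℤ), R ≠ 0 ∧ U.natDegree ≤ d - 2 ∧ V.natDegree ≤ d - 1 ∧
    f * U + derivative f * V = C R ∧
    |(R : ℝ)| ≤ ((2 * d).factorial : ℝ) * (d * B) ^ (2 * d) ∧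
    (∀ i, |(U.coeff i : ℝ)| ≤ ((2 * d).factorial : ℝ) * (d * B) ^ (2 * d)) ∧
    (∀ i, |(V.coeff i : ℝ)| ≤ ((2 * d).factorial : ℝ) * (d * B) ^ (2 * d))

/-- (ARI) passage to an equation between integers -/
def ST_ARI : Prop := ∀ d : ℕ, 1 ≤ d → ∃ κ : ℕ, ∀ (F : ℚ[X]) (x y : ℚ) (B : ℝ), F.natDegree = d →
  F.Separable → 1 ≤ B → (∀ i, ht (F.coeff i) ≤ B) → y ^ 2 = F.eval x →
  ∃ (f : ℤ[X]), f.natDegree = d ∧ (f.map (Int.castRingHom ℚ)).Separable ∧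
    (∀ i, |(f.coeff i : ℝ)| ≤ B ^ κ) ∧
    (y ≠ 0 → ∃ k : ℤ, k ≠ 0 ∧ |(k : ℝ)| ≤ B ^ κ ∧ hom d f x.num x.den = k * y.num ^ 2) ∧
    (y = 0 → hom d f x.num x.den = 0)

/-- (ROOT) rational roots have small height -/
def ST_ROOT : Prop := ∀ d : ℕ, 1 ≤ d → ∀ (f : ℤ[X]) (p q : ℤ) (B : ℝ), f.natDegree = d →
  1 ≤ B → (∀ i, |(f.coeff i : ℝ)| ≤ B) → IsCoprime p q → q ≠ 0 → hom d f p q = 0 →
  |(p : ℝ)| ≤ (d + 1) * B ^ 2 ∧ |(q : ℝ)| ≤ B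

/-- (NUMH) the numerical heart: all quantities bounded by `E` are harmless -/
def ST_NUMH : Prop := ∀ (d : ℕ) (S : Finset ℕ), 5 ≤ d → (∀ p ∈ S, p.Prime) →
  ∃ κ : ℕ, ∀ (f U V : ℤ[X]) (R k p q N p' q' n' : ℤ) (E H : ℝ),
    f.natDegree = d → U.natDegree ≤ d - 2 → V.natDegree ≤ d - 1 →
    f * U + derivative f * V = C R → R ≠ 0 → k ≠ 0 → q ≠ 0 → N ≠ 0 → IsCoprime p q →
    1 ≤ E → (∀ i, |(f.coeff i : ℝ)| ≤ E) → (∀ i, |(U.coeff i : ℝ)| ≤ E) →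
    (∀ i, |(V.coeff i : ℝ)| ≤ E) → |(R : ℝ)| ≤ E → |(k : ℝ)| ≤ E →
    H = max |(p : ℝ)| |(q : ℝ)| →
    hom d f p q = k * N ^ 2 →
    homX d f p q * p' + homY d f p q * q' = 2 * k * N * n' →
    q * p' - p * q' ≠ 0 →
    (∀ v ∈ plc S, av v (p' : ℚ) ≤ E * av v (p : ℚ)) →
    (∀ v ∈ plc S, av v (q' : ℚ) ≤ E * av v (q : ℚ)) →
    (∀ v ∈ plc S, av v (n' : ℚ) ≤ E * av v (N : ℚ)) →
    H ^ (d - 4) ≤ κ * E ^ κ

/-- (T3) the result -/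
def ST_T3 : Prop := ∀ (S : Finset ℕ) (t d : ℕ) (κ : ℝ), (∀ p ∈ S, p.Prime) → 5 ≤ d → 0 ≤ κ →
  ∃ C₁ C₂ : ℝ, 0 < C₁ ∧ 0 < C₂ ∧ ∀ F : ℚ[X], F.natDegree = d → F.Separable →
    ∀ x y : ℚ, y ^ 2 = F.eval x → ∀ H : ℝ, (∀ i : ℕ, Real.log (ht (F.coeff i)) ≤ H) →
      Sparse S t (Real.exp (κ * (H + 1))) x.num → Sparse S t (Real.exp (κ * (H + 1))) x.den →
      Sparse S t (Real.exp (κ * (H + 1))) y.num → Real.log (ht x) ≤ C₁ * H + C₂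

/-- slow sequences: height `H ^ o(1)` -/
def Slow (𝒰 : Ultrafilter ℕ) (H : ℕ → ℝ) (c : ℕ → ℚ) : Prop :=
  ∀ ε : ℝ, 0 < ε → ∀ᶠ j in (𝒰 : Filter ℕ), ht (c j) ≤ H j ^ ε

/-- families of Laurent polynomials with bounded support and slow coefficients -/
def SLF (𝒰 : Ultrafilter ℕ) (H : ℕ → ℝ) {r : ℕ} (F : ℕ → Lau r) : Prop :=
  ∃ (ι : Type) (_ : Fintype ι) (m : ι → Fin r → ℤ) (c : ℕ → ι → ℚ),
    (∀ i, Slow 𝒰 H (fun j => c j i)) ∧ ∀ j, F j = ∑ i, AddMonoidAlgebra.single (m i) (c j i)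

end Pool.Agent.Helper9.MT
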