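import Pool.Agent.Helper9.MT.Sheet
import Pool.Agent.Helper9.MT.Ind

/-!
Moving targets: slow sequences and the lattice of slow monomials.
-/

set_option autoImplicit false

namespace Pool.Agent.Helper9.MT

open Finset Filter Pool.Agent.Helper70.SUB

variable {𝒰 : Ultrafilter ℕ} {H : ℕ → ℝ}

theorem ev_pos (hH : Tendsto H 𝒰 atTop) : ∀ᶠ j in (𝒰 : Filter ℕ), 1 ≤ H j :=
  hH.eventually_ge_atTop 1

theorem ev_rpow (hH : Tendsto H 𝒰 atTop) (ε : ℝ) (hε : 0 < ε) (B : ℝ) :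
    ∀ᶠ j in (𝒰 : Filter ℕ), B ≤ H j ^ ε :=
  ((tendsto_rpow_atTop hε).comp hH).eventually_ge_atTop B

theorem Slow.congr {c d : ℕ → ℚ} (h : Slow 𝒰 H c) (hcd : ∀ᶠ j in (𝒰 : Filter ℕ), c j = d j) :
    Slow 𝒰 H d := by
  intro ε hε
  filter_upwards [h ε hε, hcd] with j h1 h2
  rwa [← h2]

theorem Slow.of_le {c : ℕ → ℚ} (hH : Tendsto H 𝒰 atTop) (B : ℝ)
    (h : ∀ᶠ j in (𝒰 : Filter ℕ), ht (c j) ≤ B) : Slow 𝒰 H c := by
  intro ε hε
  filter_upwards [h, ev_rpow hH ε hε B] with j h1 h2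
  exact h1.trans h2

theorem Slow.const (hH : Tendsto H 𝒰 atTop) (q : ℚ) : Slow 𝒰 H (fun _ => q) :=
  Slow.of_le hH (ht q) (Filter.Eventually.of_forall fun _ => le_refl _)

theorem Slow.mul {c d : ℕ → ℚ} (hH : Tendsto H 𝒰 atTop) (h1 : Slow 𝒰 H c) (h2 : Slow 𝒰 H d) :
    Slow 𝒰 H (fun j => c j * d j) := by
  intro ε hε
  filter_upwards [h1 (ε / 2) (by positivity), h2 (ε / 2) (by positivity), ev_pos hH] with j a b e
  have e0 : 0 < H j := by linarith
  calc ht (c j * d j) ≤ ht (c j) * ht (d j) := ht_mul _ _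
    _ ≤ H j ^ (ε / 2) * H j ^ (ε / 2) := mul_le_mul a b (ht_pos _).le (Real.rpow_nonneg e0.le _)
    _ = H j ^ ε := by rw [← Real.rpow_add e0]; congr 1; ring

theorem Slow.add {c d : ℕ → ℚ} (hH : Tendsto H 𝒰 atTop) (h1 : Slow 𝒰 H c) (h2 : Slow 𝒰 H d) :
    Slow 𝒰 H (fun j => c j + d j) := by
  intro ε hε
  filter_upwards [h1 (ε / 3) (by positivity), h2 (ε / 3) (by positivity), ev_pos hH,
    ev_rpow hH (ε / 3) (by positivity) 2] with j a b e f
  have e0 : 0 < H j := by linarith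
  calc ht (c j + d j) ≤ 2 * (ht (c j) * ht (d j)) := ht_add _ _
    _ ≤ H j ^ (ε / 3) * (H j ^ (ε / 3) * H j ^ (ε / 3)) :=
        mul_le_mul f (mul_le_mul a b (ht_pos _).le (Real.rpow_nonneg e0.le _))
          (mul_nonneg (ht_pos _).le (ht_pos _).le) (Real.rpow_nonneg e0.le _)
    _ = H j ^ ε := by rw [← Real.rpow_add e0, ← Real.rpow_add e0]; congr 1; ring

theorem Slow.inv {c : ℕ → ℚ} (h : Slow 𝒰 H c) : Slow 𝒰 H (fun j => (c j)⁻¹) := by
  intro ε hε
  filter_upwards [h ε hε] with j hj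
  rwa [ht_inv]

theorem Slow.neg {c : ℕ → ℚ} (h : Slow 𝒰 H c) : Slow 𝒰 H (fun j => -(c j)) := by
  intro ε hε
  filter_upwards [h ε hε] with j hj
  rwa [ht_neg]

theorem Slow.pow {c : ℕ → ℚ} (hH : Tendsto H 𝒰 atTop) (h : Slow 𝒰 H c) (n : ℕ) :
    Slow 𝒰 H (fun j => c j ^ n) := by
  induction n with
  | zero =>
    simp only [pow_zero]
    exact Slow.const hH 1
  | succ n ih =>
    simp only [pow_succ]
    exact ih.mul hH h

theorem Slow.zpow {c : ℕ → ℚ} (hH : Tendsto H 𝒰 atTop) (h : Slow 𝒰 H c) (n : ℤ) :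
    Slow 𝒰 H (fun j => c j ^ n) := by
  cases n with
  | ofNat n =>
    simp only [Int.ofNat_eq_natCast, zpow_natCast]
    exact h.pow hH n
  | negSucc n =>
    simp only [zpow_negSucc]
    exact (h.pow hH (n + 1)).inv

theorem Slow.sum {ι : Type} (s : Finset ι) {c : ℕ → ι → ℚ} (hH : Tendsto H 𝒰 atTop)
    (h : ∀ i ∈ s, Slow 𝒰 H (fun j => c j i)) : Slow 𝒰 H (fun j => ∑ i ∈ s, c j i) := by
  classical
  induction s using Finset.induction_on with
  | empty =>
    simp only [Finset.sum_empty]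
    exact Slow.const hH 0
  | insert a s ha ih =>
    simp only [Finset.sum_insert ha]
    exact (h a (Finset.mem_insert_self _ _)).add hH
      (ih fun i hi => h i (Finset.mem_insert_of_mem hi))

theorem Slow.prod {ι : Type} (s : Finset ι) {c : ℕ → ι → ℚ} (hH : Tendsto H 𝒰 atTop)
    (h : ∀ i ∈ s, Slow 𝒰 H (fun j => c j i)) : Slow 𝒰 H (fun j => ∏ i ∈ s, c j i) := by
  classical
  induction s using Finset.induction_on with
  | empty =>
    simp only [Finset.prod_empty]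
    exact Slow.const hH 1
  | insert a s ha ih =>
    simp only [Finset.prod_insert ha]
    exact (h a (Finset.mem_insert_self _ _)).mul hH
      (ih fun i hi => h i (Finset.mem_insert_of_mem hi))

/-- not slow: large height -/
theorem not_slow {c : ℕ → ℚ} (h : ¬ Slow 𝒰 H c) :
    ∃ κ : ℝ, 0 < κ ∧ ∀ᶠ j in (𝒰 : Filter ℕ), H j ^ κ ≤ ht (c j) := by
  unfold Slow at h
  push Not at h
  obtain ⟨κ, hκ, h⟩ := h
  refine ⟨κ, hκ, ?_⟩
  filter_upwards [h] with j hj
  exact hj.le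

/-- a product of a slow and a non slow sequence -/
theorem ht_mul_ge (x y : ℚ) (hy : y ≠ 0) : ht x / ht y ≤ ht (x * y) := by
  rw [div_le_iff₀ (ht_pos y)]
  calc ht x = ht ((x * y) * y⁻¹) := by rw [mul_assoc, mul_inv_cancel₀ hy, mul_one]
    _ ≤ ht (x * y) * ht y⁻¹ := ht_mul _ _
    _ = ht (x * y) * ht y := by rw [ht_inv]

/-! ### monomials -/

/-- monomials over any index type -/
noncomputable def mono {ι : Type} [Fintype ι] (w : ι → ℚ) (m : ι → ℤ) : ℚ := ∏ k, w k ^ (m k)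

theorem mono_mon {r : ℕ} (w : Fin r → ℚ) (m : Fin r → ℤ) : mono w m = mon w m := rfl

theorem mono_pos {ι : Type} [Fintype ι] (w : ι → ℚ) (hw : ∀ k, 0 < w k) (m : ι → ℤ) :
    0 < mono w m := Finset.prod_pos fun k _ => zpow_pos (hw k) _

theorem mono_zero {ι : Type} [Fintype ι] (w : ι → ℚ) : mono w 0 = 1 := by
  simp [mono]

theorem mono_add {ι : Type} [Fintype ι] (w : ι → ℚ) (hw : ∀ k, 0 < w k) (m m' : ι → ℤ) :
    mono w (m + m') = mono w m * mono w m' := by
  unfold mono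
  rw [← Finset.prod_mul_distrib]
  exact Finset.prod_congr rfl fun k _ => zpow_add₀ (hw k).ne' _ _

theorem mono_smul {ι : Type} [Fintype ι] (w : ι → ℚ) (m : ι → ℤ) (n : ℤ) :
    mono w (n • m) = mono w m ^ n := by
  unfold mono
  rw [← Finset.prod_zpow]
  refine Finset.prod_congr rfl fun k _ => ?_
  rw [Pi.smul_apply, smul_eq_mul, mul_comm, zpow_mul]

theorem mono_neg {ι : Type} [Fintype ι] (w : ι → ℚ) (m : ι → ℤ) :
    mono w (-m) = (mono w m)⁻¹ := by
  have := mono_smul w m (-1)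
  rw [neg_one_smul, zpow_neg_one] at this
  exact this

theorem mono_sum {ι κ : Type} [Fintype ι] (w : ι → ℚ) (hw : ∀ k, 0 < w k) (s : Finset κ)
    (n : κ → ℤ) (m : κ → ι → ℤ) :
    mono w (∑ k ∈ s, n k • m k) = ∏ k ∈ s, mono w (m k) ^ n k := by
  classical
  induction s using Finset.induction_on with
  | empty => rw [Finset.sum_empty, Finset.prod_empty, mono_zero]
  | insert a s ha ih =>
    rw [Finset.sum_insert ha, Finset.prod_insert ha, mono_add w hw, mono_smul, ih]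

theorem mono_single {ι : Type} [Fintype ι] [DecidableEq ι] (w : ι → ℚ) (i : ι) :
    mono w (Pi.single i 1) = w i := by
  unfold mono
  rw [Finset.prod_eq_single i]
  · simp
  · intro k _ hk
    simp [Pi.single_eq_of_ne hk]
  · simp

/-- `S`-unit rationals -/
def QS (S : Finset ℕ) (x : ℚ) : Prop := ∃ a b : ℤ, SU S a ∧ SU S b ∧ x * b = a

theorem su_mul {S : Finset ℕ} {a b : ℤ} (ha : SU S a) (hb : SU S b) : SU S (a * b) :=
  ⟨mul_ne_zero ha.1 hb.1, fun q hq h => by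
    rcases (Nat.prime_iff_prime_int.1 hq).dvd_or_dvd h with h | h
    · exact ha.2 q hq h
    · exact hb.2 q hq h⟩

theorem su_dvd {S : Finset ℕ} {a b : ℤ} (ha : SU S a) (h : b ∣ a) : SU S b :=
  ⟨fun h0 => ha.1 (by rw [h0] at h; exact zero_dvd_iff.1 h), fun q hq hqb =>
    ha.2 q hq (hqb.trans h)⟩

theorem su_one {S : Finset ℕ} : SU S 1 :=
  ⟨one_ne_zero, fun q hq h => by
    have h1 : (q : ℤ) ∣ ((1 : ℕ) : ℤ) := by simpa using h
    have h2 : q ∣ 1 := Int.natCast_dvd_natCast.1 h1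
    exact absurd (Nat.dvd_one.1 h2) hq.one_lt.ne'⟩

theorem su_prod {S : Finset ℕ} {ι : Type} (s : Finset ι) (f : ι → ℤ) (h : ∀ i ∈ s, SU S (f i)) :
    SU S (∏ i ∈ s, f i) := by
  classical
  induction s using Finset.induction_on with
  | empty => rw [Finset.prod_empty]; exact su_one
  | insert a s ha ih =>
    rw [Finset.prod_insert ha]
    exact su_mul (h a (Finset.mem_insert_self _ _))
      (ih fun i hi => h i (Finset.mem_insert_of_mem hi))

theorem QS.mul {S : Finset ℕ} {x y : ℚ} (hx : QS S x) (hy : QS S y) : QS S (x * y) := by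
  obtain ⟨a, b, ha, hb, h⟩ := hx
  obtain ⟨a', b', ha', hb', h'⟩ := hy
  refine ⟨a * a', b * b', su_mul ha ha', su_mul hb hb', ?_⟩
  push_cast
  rw [← h, ← h']
  ring

theorem QS.inv {S : Finset ℕ} {x : ℚ} (hx : QS S x) : QS S x⁻¹ := by
  obtain ⟨a, b, ha, hb, h⟩ := hx
  have ha0 : (a : ℚ) ≠ 0 := by exact_mod_cast ha.1
  have hx0 : x ≠ 0 := by
    rintro rfl
    rw [zero_mul] at h
    exact ha0 h.symm
  refine ⟨b, a, hb, ha, ?_⟩
  rw [← h]
  field_simp

theorem QS.int {S : Finset ℕ} {u : ℤ} (hu : SU S u) : QS S (u : ℚ) :=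
  ⟨u, 1, hu, su_one, by simp⟩

theorem QS.one {S : Finset ℕ} : QS S 1 := by
  have := QS.int (S := S) su_one
  simpa using this

theorem QS.pow {S : Finset ℕ} {x : ℚ} (hx : QS S x) (n : ℕ) : QS S (x ^ n) := by
  induction n with
  | zero => rw [pow_zero]; exact QS.one
  | succ n ih => rw [pow_succ]; exact ih.mul hx

theorem QS.zpow {S : Finset ℕ} {x : ℚ} (hx : QS S x) (n : ℤ) : QS S (x ^ n) := by
  cases n with
  | ofNat n =>
    simp only [Int.ofNat_eq_natCast, zpow_natCast]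
    exact hx.pow n
  | negSucc n =>
    simp only [zpow_negSucc]
    exact (hx.pow (n + 1)).inv

theorem QS.prod {S : Finset ℕ} {ι : Type} (s : Finset ι) (f : ι → ℚ) (h : ∀ i ∈ s, QS S (f i)) :
    QS S (∏ i ∈ s, f i) := by
  classical
  induction s using Finset.induction_on with
  | empty => rw [Finset.prod_empty]; exact QS.one
  | insert a s ha ih =>
    rw [Finset.prod_insert ha]
    exact (h a (Finset.mem_insert_self _ _)).mul
      (ih fun i hi => h i (Finset.mem_insert_of_mem hi))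

theorem QS.mono {S : Finset ℕ} {ι : Type} [Fintype ι] (w : ι → ℚ) (m : ι → ℤ)
    (h : ∀ i, QS S (w i)) : QS S (mono w m) :=
  QS.prod _ _ fun i _ => (h i).zpow _

theorem QS.numden {S : Finset ℕ} {x : ℚ} (hx : QS S x) : SU S x.num ∧ SU S (x.den : ℤ) := by
  obtain ⟨a, b, ha, hb, h⟩ := hx
  have hb0 : (b : ℚ) ≠ 0 := by exact_mod_cast hb.1
  have hx' : x = (a : ℚ) / b := by rw [eq_div_iff hb0, h]
  obtain ⟨c, hc1, hc2⟩ := Rat.num_den_mk (q := x) hb.1 (by rw [Rat.divInt_eq_div]; exact hx')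
  exact ⟨su_dvd ha ⟨c, by rw [hc1]; ring⟩, su_dvd hb ⟨c, by rw [hc2]; ring⟩⟩

/-- heights of monomials -/
theorem ht_mono_le {ι : Type} [Fintype ι] (w : ι → ℚ) (m : ι → ℤ) (B : ℝ)
    (h : ∀ i, ht (w i) ≤ B) : ht (mono w m) ≤ B ^ (∑ i, (m i).natAbs) := by
  unfold mono
  refine (ht_prod _ _).trans ?_
  rw [← Finset.prod_pow_eq_pow_sum]
  refine Finset.prod_le_prod (fun i _ => (ht_pos _).le) fun i _ => ?_
  refine (ht_zpow_le _ _).trans ?_
  exact pow_le_pow_left₀ (ht_pos _).le (h i) _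

/-! ### the lattice of slow monomials -/

/-- slow monomials -/
noncomputable def slowL (hH : Tendsto H 𝒰 atTop) {ι : Type} [Fintype ι] (U : ℕ → ι → ℚ)
    (hU : ∀ j i, 0 < U j i) : Submodule ℤ (ι → ℤ) where
  carrier := {l | Slow 𝒰 H (fun j => mono (U j) l)}
  zero_mem' := by
    show Slow 𝒰 H (fun j => mono (U j) 0)
    simp only [mono_zero]
    exact Slow.const hH 1
  add_mem' := by
    intro a b ha hb
    show Slow 𝒰 H (fun j => mono (U j) (a + b))
    simp only [mono_add _ (hU _)]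
    exact Slow.mul hH ha hb
  smul_mem' := by
    intro n l hl
    show Slow 𝒰 H (fun j => mono (U j) (n • l))
    simp only [mono_smul]
    exact Slow.zpow hH hl n

theorem mem_slowL (hH : Tendsto H 𝒰 atTop) {ι : Type} [Fintype ι] (U : ℕ → ι → ℚ)
    (hU : ∀ j i, 0 < U j i) (l : ι → ℤ) :
    l ∈ slowL hH U hU ↔ Slow 𝒰 H (fun j => mono (U j) l) := Iff.rfl

theorem slowL_sat (hH : Tendsto H 𝒰 atTop) {ι : Type} [Fintype ι] (U : ℕ → ι → ℚ)
    (hU : ∀ j i, 0 < U j i) (n : ℤ) (hn : n ≠ 0) (l : ι → ℤ)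
    (h : n • l ∈ slowL hH U hU) : l ∈ slowL hH U hU := by
  rw [mem_slowL] at h ⊢
  intro ε hε
  filter_upwards [h ε hε] with j hj
  rw [mono_smul] at hj
  exact (ht_zpow_ge _ n hn).trans hj

/-- independent quantities modulo slow monomials -/
theorem monos (hH : Tendsto H 𝒰 atTop) {ι : Type} [Fintype ι] [DecidableEq ι] (U : ℕ → ι → ℚ)
    (hU : ∀ j i, 0 < U j i) :
    ∃ (r : ℕ) (e : Fin r → ι → ℤ) (m : ι → Fin r → ℤ) (c : ℕ → ι → ℚ),
      (∀ i, Slow 𝒰 H (fun j => c j i)) ∧ (∀ j i, 0 < c j i) ∧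
      (∀ j i, U j i = c j i * mono (fun k => mono (U j) (e k)) (m i)) ∧
      (∀ l : Fin r → ℤ, l ≠ 0 →
        ¬ Slow 𝒰 H (fun j => mono (fun k => mono (U j) (e k)) l)) := by
  obtain ⟨L, hL⟩ : ∃ L, L = slowL hH U hU := ⟨_, rfl⟩
  have htf : Module.IsTorsionFree ℤ ((ι → ℤ) ⧸ L) := by
    rw [Module.isTorsionFree_iff_smul_eq_zero]
    intro n x hx
    obtain ⟨l, rfl⟩ := Submodule.Quotient.mk_surjective L x
    by_cases hn : n = 0
    · exact Or.inl hn
    · right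
      rw [← Submodule.Quotient.mk_smul, Submodule.Quotient.mk_eq_zero] at hx
      rw [Submodule.Quotient.mk_eq_zero]
      rw [hL] at hx ⊢
      exact slowL_sat hH U hU n hn l hx
  have hfree : Module.Free ℤ ((ι → ℤ) ⧸ L) := Module.free_of_finite_type_torsion_free'
  obtain ⟨b⟩ : Nonempty (Module.Basis (Fin (Module.finrank ℤ ((ι → ℤ) ⧸ L))) ℤ
    ((ι → ℤ) ⧸ L)) := ⟨Module.finBasis ℤ _⟩
  obtain ⟨r, hr⟩ : ∃ r, r = Module.finrank ℤ ((ι → ℤ) ⧸ L) := ⟨_, rfl⟩
  rw [← hr] at b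
  choose e he using fun k => Submodule.Quotient.mk_surjective L (b k)
  obtain ⟨m, hm⟩ : ∃ m : ι → Fin r → ℤ, ∀ i k, m i k =
      b.repr (Submodule.Quotient.mk (Pi.single i 1)) k := ⟨_, fun _ _ => rfl⟩
  have hmem : ∀ i, (Pi.single i 1 - ∑ k, m i k • e k : ι → ℤ) ∈ L := by
    intro i
    rw [← Submodule.Quotient.mk_eq_zero, Submodule.Quotient.mk_sub, sub_eq_zero]
    have h1 : (Submodule.Quotient.mk (∑ k, m i k • e k) : (ι → ℤ) ⧸ L) = ∑ k, m i k • b k := by
      rw [← Submodule.mkQ_apply, map_sum]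
      refine Finset.sum_congr rfl fun k _ => ?_
      rw [map_smul, Submodule.mkQ_apply, he]
    rw [h1]
    simp only [hm]
    exact (b.sum_repr _).symm
  refine ⟨r, e, m, fun j i => mono (U j) (Pi.single i 1 - ∑ k, m i k • e k), ?_, ?_, ?_, ?_⟩
  · intro i
    have := hmem i
    rw [hL] at this
    exact this
  · intro j i
    exact mono_pos _ (hU j) _
  · intro j i
    have h1 : mono (fun k => mono (U j) (e k)) (m i) = mono (U j) (∑ k, m i k • e k) :=
      (mono_sum (U j) (hU j) _ _ _).symm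
    rw [h1, ← mono_add _ (hU j), sub_add_cancel, mono_single]
  · intro l hl hs
    apply hl
    have h1 : ∑ k, l k • e k ∈ L := by
      rw [hL, mem_slowL]
      refine hs.congr (Filter.Eventually.of_forall fun j => ?_)
      exact (mono_sum (U j) (hU j) _ _ _).symm
    have h2 : ∑ k, l k • b k = 0 := by
      have h3 := (Submodule.Quotient.mk_eq_zero L).2 h1
      rw [← h3, ← Submodule.mkQ_apply, map_sum]
      refine Finset.sum_congr rfl fun k _ => ?_
      rw [map_smul, Submodule.mkQ_apply, he]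
    funext k
    exact Fintype.linearIndependent_iff.1 b.linearIndependent l h2 k

end Pool.Agent.Helper9.MT
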